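import Pool.Agent.H366Z.Mat.Group

/-! Few subspaces are invariant under a non-scalar semilinear monomial map. -/

set_option autoImplicit false
set_option linter.unusedSectionVars false

open Finset
open scoped Classical

namespace Pool.Agent.H366Z.Mat

variable {F : Type} [Field F] [Fintype F] {n : ℕ}

lemma card_mem {V : Type} [AddCommGroup V] [Module F V] [Fintype V] (K : Submodule F V) :
    #{x | x ∈ K} = Fintype.card F ^ Module.finrank F K := by
  rw [← Module.card_eq_pow_finrank (K := F) (V := K), Fintype.card_subtype]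

lemma card_span_le {ι : Type} [Fintype ι] (v : ι → Fin n → F) :
    Module.finrank F (Submodule.span F (Set.range v)) ≤ Fintype.card ι :=
  finrank_range_le_card v

lemma kill_le {r : ℕ} {ι : Type} [Fintype ι] (x : ι → Fin n → F) (hx : LinearIndependent F x)
    (s : Finset (Fin n → Fin r → F)) (hs : ∀ φ ∈ s, ∀ i, x i ∈ kr (F := F) φ) :
    (#s : ℝ) ≤ ((Fintype.card F : ℝ) ^ r) ^ n / ((Fintype.card F : ℝ) ^ r) ^ Fintype.card ι := by
  have hq0 : (0 : ℝ) < Fintype.card F := by exact_mod_cast Fintype.card_pos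
  rw [le_div_iff₀ (by positivity)]
  have h := card_kill (r := r) x hx
  have h2 : #s ≤ #{φ : Fin n → Fin r → F | ∀ i, x i ∈ kr (F := F) φ} :=
    card_le_card fun φ hφ => by simpa using hs φ hφ
  have h3 := Nat.mul_le_mul_right ((Fintype.card F ^ r) ^ Fintype.card ι) h2
  rw [h] at h3
  exact_mod_cast h3

lemma caseB (r m : ℕ) (N : Finset (Fin n → F)) (c : ℝ) (hc : 0 ≤ c)
    (B : Finset (Fin n → Fin r → F))
    (hB : ∀ φ ∈ B, c + (Fintype.card F : ℝ) ^ m ≤ #{x ∈ N | x ∈ kr (F := F) φ}) :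
    #B * (c * (Fintype.card F : ℝ) ^ r) ^ m ≤ (#N : ℝ) ^ m * ((Fintype.card F : ℝ) ^ r) ^ n := by
  have hq0 : (0 : ℝ) < Fintype.card F := by exact_mod_cast Fintype.card_pos
  have hq1 : 1 ≤ Fintype.card F := Fintype.card_pos
  have h := dc B (univ.filter fun v : Fin m → Fin n → F => (∀ i, v i ∈ N) ∧ LinearIndependent F v)
    (fun φ v => ∀ i, v i ∈ kr (F := F) φ) (c ^ m)
    (((Fintype.card F : ℝ) ^ r) ^ n / ((Fintype.card F : ℝ) ^ r) ^ Fintype.card (Fin m)) ?_ ?_
  · have h2 : #(univ.filter fun v : Fin m → Fin n → F =>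
        (∀ i, v i ∈ N) ∧ LinearIndependent F v) ≤ #N ^ m := by
      have : #(Fintype.piFinset fun _ : Fin m => N) = #N ^ m := by simp
      rw [← this]
      apply card_le_card
      intro v hv
      simp only [mem_filter, mem_univ, true_and] at hv
      exact Fintype.mem_piFinset.2 hv.1
    have h3 : (#(univ.filter fun v : Fin m → Fin n → F =>
        (∀ i, v i ∈ N) ∧ LinearIndependent F v) : ℝ) ≤ (#N : ℝ) ^ m := by exact_mod_cast h2
    rw [Fintype.card_fin] at h
    have h4 : #B * c ^ m ≤ (#N : ℝ) ^ m *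
        (((Fintype.card F : ℝ) ^ r) ^ n / ((Fintype.card F : ℝ) ^ r) ^ m) :=
      h.trans (by gcongr)
    rw [← mul_div_assoc, le_div_iff₀ (by positivity)] at h4
    rw [mul_pow, ← mul_assoc]; exact h4
  · intro φ hφ
    have := greedy (fun m' (v : Fin m' → Fin n → F) =>
      (∀ i, v i ∈ N ∧ v i ∈ kr (F := F) φ) ∧ LinearIndependent F v) c hc m
      (fun v => ⟨fun i => i.elim0, linearIndependent_empty_type⟩) ?_
    · refine this.trans ?_
      norm_cast
      apply card_le_card
      intro v hv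
      simp only [mem_filter, mem_univ, true_and] at hv ⊢
      exact ⟨⟨fun i => (hv.1 i).1, hv.2⟩, fun i => (hv.1 i).2⟩
    · intro m' hm' v hv
      have h1 := hB φ hφ
      have h2 : #{x ∈ N | x ∈ kr (F := F) φ} ≤
          #{x | (∀ i, (Fin.cons x v : Fin (m' + 1) → Fin n → F) i ∈ N ∧
            (Fin.cons x v : Fin (m' + 1) → Fin n → F) i ∈ kr (F := F) φ) ∧
            LinearIndependent F (Fin.cons x v : Fin (m' + 1) → Fin n → F)} +
          #{x | x ∈ Submodule.span F (Set.range v)} := by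
        refine le_trans (card_le_card ?_) (card_union_le _ _)
        intro x hx
        simp only [mem_filter, mem_univ, true_and, mem_union] at hx ⊢
        by_cases hs : x ∈ Submodule.span F (Set.range v)
        · right; exact hs
        · left
          refine ⟨fun i => ?_, linearIndependent_finCons.2 ⟨hv.2, hs⟩⟩
          refine Fin.cases ?_ (fun i => ?_) i
          · simpa using hx
          · simpa using hv.1 i
      have h3 : #{x | x ∈ Submodule.span F (Set.range v)} ≤ Fintype.card F ^ m := by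
        rw [card_mem]
        apply Nat.pow_le_pow_right hq1
        have := card_span_le v
        rw [Fintype.card_fin] at this
        omega
      have h4 := h2.trans (Nat.add_le_add_left h3 _)
      have h5 : (#{x ∈ N | x ∈ kr (F := F) φ} : ℝ) ≤ _ := Nat.cast_le.2 h4
      push_cast at h5
      convert (show c ≤ _ from le_of_add_le_add_right (h1.trans h5))
      rfl
  · intro v hv
    simp only [mem_filter, mem_univ, true_and] at hv
    apply kill_le v hv.2
    intro φ hφ
    exact (mem_filter.1 hφ).2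

def sz : ℕ → ℕ
  | 0 => 0
  | m + 1 => sz m + 1 + 1

lemma sz_eq (m : ℕ) : sz m = 2 * m := by
  induction m with
  | zero => rfl
  | succ m ih => rw [sz, ih]; ring

def dbl (g : Mon F n) : ∀ m, (Fin m → Fin n → F) → Fin (sz m) → Fin n → F
  | 0, _ => fun i => i.elim0
  | m + 1, v => Fin.cons (act g (v 0)) (Fin.cons (v 0) (dbl g m (Fin.tail v)))

lemma dbl_cons (g : Mon F n) (m : ℕ) (x : Fin n → F) (v : Fin m → Fin n → F) :
    dbl g (m + 1) (Fin.cons x v) =
      (Fin.cons (act g x) (Fin.cons x (dbl g m v) : Fin (sz m + 1) → Fin n → F) :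
        Fin (sz m + 1 + 1) → Fin n → F) := rfl

lemma dbl_mem (g : Mon F n) (K : Submodule F (Fin n → F)) (hK : ∀ x ∈ K, act g x ∈ K) :
    ∀ m (v : Fin m → Fin n → F), (∀ i, v i ∈ K) → ∀ l, dbl g m v l ∈ K
  | 0, _, _, l => l.elim0
  | m + 1, v, hv, l => by
    refine Fin.cases ?_ (fun l => ?_) (show Fin (sz m + 1 + 1) from l)
    · exact hK _ (hv 0)
    · refine Fin.cases ?_ (fun l => ?_) l
      · exact hv 0
      · exact dbl_mem g K hK m (Fin.tail v) (fun i => hv i.succ) l

lemma caseA (g : Mon F n) (r s : ℕ) (c : ℝ) (hc : 0 ≤ c) (A : Finset (Fin n → Fin r → F))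
    (hA1 : ∀ φ ∈ A, ∀ x ∈ kr (F := F) φ, act g x ∈ kr (F := F) φ)
    (hA2 : ∀ φ ∈ A, ∀ W : Submodule F (Fin n → F), Module.finrank F W ≤ 2 * (s - 1) →
      c + #{x | x ∈ kr (F := F) φ ∧ (x ∈ W ∨ ∃ l : F, act g x - l • x ∈ W)} ≤
        #{x | x ∈ kr (F := F) φ}) :
    #A * (c * ((Fintype.card F : ℝ) ^ r) ^ 2) ^ s ≤
      ((Fintype.card F : ℝ) ^ n) ^ s * ((Fintype.card F : ℝ) ^ r) ^ n := by
  have hq0 : (0 : ℝ) < Fintype.card F := by exact_mod_cast Fintype.card_pos
  have h := dc A (univ.filter fun v : Fin s → Fin n → F => LinearIndependent F (dbl g s v))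
    (fun φ v => ∀ i, dbl g s v i ∈ kr (F := F) φ) (c ^ s)
    (((Fintype.card F : ℝ) ^ r) ^ n / ((Fintype.card F : ℝ) ^ r) ^ Fintype.card (Fin (sz s))) ?_ ?_
  · have h2 : #(univ.filter fun v : Fin s → Fin n → F => LinearIndependent F (dbl g s v)) ≤
        (Fintype.card F ^ n) ^ s := by
      have := card_le_univ
        (univ.filter fun v : Fin s → Fin n → F => LinearIndependent F (dbl g s v))
      simpa using this
    have h3 : (#(univ.filter fun v : Fin s → Fin n → F =>
        LinearIndependent F (dbl g s v)) : ℝ) ≤ ((Fintype.card F : ℝ) ^ n) ^ s := by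
      exact_mod_cast h2
    have hsz : Fintype.card (Fin (sz s)) = 2 * s := by rw [Fintype.card_fin, sz_eq]
    rw [hsz] at h
    have h4 : #A * c ^ s ≤ ((Fintype.card F : ℝ) ^ n) ^ s *
        (((Fintype.card F : ℝ) ^ r) ^ n / ((Fintype.card F : ℝ) ^ r) ^ (2 * s)) :=
      h.trans (by gcongr)
    rw [← mul_div_assoc, le_div_iff₀ (by positivity)] at h4
    rw [mul_pow, ← mul_assoc, ← pow_mul _ 2 s]; exact h4
  · intro φ hφ
    have := greedy (fun m' (v : Fin m' → Fin n → F) =>
      (∀ i, v i ∈ kr (F := F) φ) ∧ LinearIndependent F (dbl g m' v)) c hc s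
      (fun v => ⟨fun i => i.elim0, by
        have : IsEmpty (Fin (sz 0)) := inferInstanceAs (IsEmpty (Fin 0))
        exact linearIndependent_empty_type⟩) ?_
    · refine this.trans ?_
      norm_cast
      apply card_le_card
      intro v hv
      simp only [mem_filter, mem_univ, true_and] at hv ⊢
      exact ⟨hv.2, dbl_mem g _ (hA1 φ hφ) s v hv.1⟩
    · intro m' hm' v hv
      set W := Submodule.span F (Set.range (dbl g m' v)) with hW
      have h1 := hA2 φ hφ W (by
        have h := card_span_le (dbl g m' v)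
        have hsz : Fintype.card (Fin (sz m')) = 2 * m' := by rw [Fintype.card_fin, sz_eq]
        rw [hsz, ← hW] at h
        omega)
      have h2 : #{x | x ∈ kr (F := F) φ} ≤
          #{x | (∀ i, (Fin.cons x v : Fin (m' + 1) → Fin n → F) i ∈ kr (F := F) φ) ∧
            LinearIndependent F (dbl g (m' + 1) (Fin.cons x v : Fin (m' + 1) → Fin n → F))} +
          #{x | x ∈ kr (F := F) φ ∧ (x ∈ W ∨ ∃ l : F, act g x - l • x ∈ W)} := by
        refine le_trans (card_le_card ?_) (card_union_le _ _)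
        intro x hx
        simp only [mem_filter, mem_univ, true_and, mem_union] at hx ⊢
        by_cases hs : x ∈ W ∨ ∃ l : F, act g x - l • x ∈ W
        · right; exact ⟨hx, hs⟩
        · left
          push Not at hs
          refine ⟨fun i => ?_, ?_⟩
          · refine Fin.cases ?_ (fun i => ?_) i
            · simpa using hx
            · simpa using hv.1 i
          · rw [dbl_cons]
            refine linearIndependent_finCons.2 ⟨linearIndependent_finCons.2 ⟨hv.2, hs.1⟩, ?_⟩
            rw [Fin.range_cons, Submodule.mem_span_insert]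
            rintro ⟨a, z, hz, e⟩
            apply hs.2 a
            rw [e, add_sub_cancel_left]; exact hz
      have h5 : (#{x | x ∈ kr (F := F) φ} : ℝ) ≤ _ := Nat.cast_le.2 h2
      push_cast at h5
      convert (show c ≤ _ from le_of_add_le_add_right (h1.trans h5))
      rfl
  · intro v hv
    simp only [mem_filter, mem_univ, true_and] at hv
    apply kill_le _ hv
    intro φ hφ
    exact (mem_filter.1 hφ).2

lemma badW (g : Mon F n) (K W : Submodule F (Fin n → F)) :
    #{x | x ∈ K ∧ (x ∈ W ∨ ∃ l : F, act g x - l • x ∈ W)} ≤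
      #{x | x ∈ W} * (1 + ∑ l : F, #{x ∈ Ng g l | x ∈ K}) := by
  have h1 : ∀ l : F, #{x | x ∈ K ∧ act g x - l • x ∈ W} ≤ #{x ∈ Ng g l | x ∈ K} * #{x | x ∈ W} := by
    intro l
    apply card_le_mul_card_image_of_maps_to (f := fun x => act g x - l • x)
    · intro a ha
      simp only [mem_filter, mem_univ, true_and] at ha ⊢
      exact ha.2
    · intro w _
      rcases (filter (fun a => act g a - l • a = w)
        (univ.filter fun x => x ∈ K ∧ act g x - l • x ∈ W)).eq_empty_or_nonempty with h | ⟨x0, h⟩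
      · rw [h]; simp
      · simp only [mem_filter, mem_univ, true_and] at h
        apply card_le_card_of_injOn (fun x => x - x0)
        · intro x hx
          simp only [coe_filter, mem_filter, mem_univ, true_and, Set.mem_ofPred_eq, Ng] at hx ⊢
          refine ⟨?_, K.sub_mem hx.1.1 h.1.1⟩
          rw [act_sub, smul_sub]
          have e1 := hx.2
          have e2 := h.2
          rw [sub_eq_iff_eq_add] at e1 e2
          rw [e1, e2]; abel
        · intro x _ y _ hxy
          simpa using hxy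
  have h2 : (univ.filter fun x => x ∈ K ∧ (x ∈ W ∨ ∃ l : F, act g x - l • x ∈ W)) ⊆
      (univ.filter fun x => x ∈ W) ∪
        univ.biUnion fun l : F => univ.filter fun x => x ∈ K ∧ act g x - l • x ∈ W := by
    intro x hx
    simp only [mem_filter, mem_univ, true_and, mem_union, mem_biUnion] at hx ⊢
    rcases hx.2 with h | ⟨l, h⟩
    · left; exact h
    · right; exact ⟨l, hx.1, h⟩
  refine (card_le_card h2).trans ((card_union_le _ _).trans ?_)
  rw [mul_add, mul_one, mul_sum]
  gcongr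
  refine card_biUnion_le.trans (sum_le_sum fun l _ => ?_)
  rw [mul_comm]; exact h1 l

lemma fix_phi (hq : 4 ≤ Fintype.card F) (g : Mon F n) (u m r j : ℕ) (hu : 1 ≤ u) (hjr : j + r = n)
    (hr : 4 * m ≤ r) (hr3 : 3 ≤ r)
    (H1 : ∀ l, (#(Ng g l) : ℝ) * (Fintype.card F : ℝ) ^ u ≤ (Fintype.card F : ℝ) ^ n)
    (l0 : F) (H2 : ∀ l, l ≠ l0 → (#(Ng g l) : ℝ) *
      (24 * Fintype.card F * (Fintype.card F : ℝ) ^ u * 2 ^ u) ≤ (Fintype.card F : ℝ) ^ n)
    (H3 : 48 * Fintype.card F * (Fintype.card F : ℝ) ^ u * (Fintype.card F : ℝ) ^ m ≤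
      (Fintype.card F : ℝ) ^ j) :
    (#{φ : Fin n → Fin r → F | Module.finrank F (kr (F := F) φ) + r = n ∧
      g • kr (F := F) φ = kr φ} : ℝ) ≤
      ((Fintype.card F : ℝ) ^ r) ^ n * ((Fintype.card F + 1) * (1 / 2) ^ (u * m)) := by
  set Q : ℝ := (Fintype.card F : ℝ) with hQ
  have hQ4 : 4 ≤ Q := by rw [hQ]; exact_mod_cast hq
  have hQ0 : 0 < Q := by linarith
  have hQ1 : 1 ≤ Q := by linarith
  set s := (u - 1) / 4 + 1 with hs
  set w : ℝ := Q ^ (2 * (s - 1)) with hw
  have hw1 : 1 ≤ w := one_le_pow₀ hQ1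
  have hw0 : 0 < w := by linarith
  have hwu : w ≤ Q ^ u := pow_le_pow_right₀ hQ1 (by omega)
  have hwu2 : 2 * w * 2 ^ u ≤ Q ^ u := by
    have e : Q ^ u = w * Q ^ (u - 2 * (s - 1)) := by
      rw [hw, ← pow_add]; congr 1; omega
    have h1 : (2 : ℝ) ^ (u + 1) ≤ Q ^ (u - 2 * (s - 1)) := by
      calc (2 : ℝ) ^ (u + 1) ≤ 2 ^ (2 * (u - 2 * (s - 1))) :=
            pow_le_pow_right₀ (by norm_num) (by omega)
        _ = 4 ^ (u - 2 * (s - 1)) := by rw [pow_mul]; norm_num
        _ ≤ _ := by gcongr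
    rw [e]
    calc 2 * w * 2 ^ u = w * 2 ^ (u + 1) := by ring
      _ ≤ _ := by gcongr
  set J : ℝ := Q ^ j with hJ
  have hJ0 : 0 < J := by positivity
  have hJQ : J * Q ^ r = Q ^ n := by rw [hJ, ← pow_add, hjr]
  have hQm : 1 ≤ Q ^ m := one_le_pow₀ hQ1
  have H3' : 48 * Q * w * Q ^ m ≤ J := le_trans (by gcongr) H3
  set θ : F → ℝ := fun l => if l = l0 then 3 / (4 * w) else 1 / (16 * Q * w) with hθ
  have hθ0 : ∀ l, 1 / (16 * Q * w) ≤ θ l := by
    intro l
    simp only [hθ]
    split_ifs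
    · rw [div_le_div_iff₀ (by positivity) (by positivity)]; nlinarith
    · exact le_rfl
  have hθp : ∀ l, 0 < θ l := fun l => lt_of_lt_of_le (by positivity) (hθ0 l)
  set Φ := univ.filter fun φ : Fin n → Fin r → F => Module.finrank F (kr (F := F) φ) + r = n ∧
      g • kr (F := F) φ = kr φ with hΦ
  set B : F → Finset (Fin n → Fin r → F) :=
    fun l => univ.filter fun φ => θ l * J ≤ #{x ∈ Ng g l | x ∈ kr (F := F) φ} with hB
  set A := Φ.filter fun φ => ∀ l, (#{x ∈ Ng g l | x ∈ kr (F := F) φ} : ℝ) ≤ θ l * J with hA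
  have hsub : Φ ⊆ A ∪ univ.biUnion B := by
    intro φ hφ
    simp only [hA, hB, mem_union, mem_filter, mem_biUnion, mem_univ, true_and]
    by_cases h : ∀ l, (#{x ∈ Ng g l | x ∈ kr (F := F) φ} : ℝ) ≤ θ l * J
    · left; exact ⟨hφ, h⟩
    · right
      push Not at h
      obtain ⟨l, hl⟩ := h
      exact ⟨l, hl.le⟩
  have hBl : ∀ l, (#(B l) : ℝ) ≤ (Q ^ r) ^ n * (1 / 2) ^ (u * m) := by
    intro l
    have hc : 0 < 2 / 3 * θ l * J := by have := hθp l; positivity
    have h1 := caseB r m (Ng g l) (2 / 3 * θ l * J) hc.le (B l) (by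
      intro φ hφ
      simp only [hB, mem_filter, mem_univ, true_and] at hφ
      refine le_trans ?_ hφ
      have a1 : 1 / (16 * Q * w) * J ≤ θ l * J := by gcongr; exact hθ0 l
      have a2 : 3 * Q ^ m ≤ 1 / (16 * Q * w) * J := by
        rw [div_mul_eq_mul_div, le_div_iff₀ (by positivity)]; linarith
      linarith)
    have h2 : (#(Ng g l) : ℝ) ≤ (1 / 2) ^ u * (2 / 3 * θ l * J * Q ^ r) := by
      rw [mul_assoc _ J, hJQ]
      have hN : (0 : ℝ) ≤ #(Ng g l) := by positivity
      rw [one_div_pow, div_mul_eq_mul_div, one_mul, le_div_iff₀ (by positivity)]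
      simp only [hθ]
      split_ifs with hl
      · have a1 := H1 l
        have a2 : (#(Ng g l) : ℝ) * (2 * w * 2 ^ u) ≤ Q ^ n := le_trans (by gcongr) a1
        have e : 2 / 3 * (3 / (4 * w)) * Q ^ n = Q ^ n / (2 * w) := by field_simp; norm_num
        rw [e, le_div_iff₀ (by positivity)]
        linarith
      · have a1 := H2 l hl
        have a2 : (#(Ng g l) : ℝ) * (24 * Q * w * 2 ^ u) ≤ Q ^ n := le_trans (by gcongr) a1
        have e : 2 / 3 * (1 / (16 * Q * w)) * Q ^ n = Q ^ n / (24 * Q * w) := by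
          field_simp; norm_num
        rw [e, le_div_iff₀ (by positivity)]
        linarith
    have h3 : (#(Ng g l) : ℝ) ^ m ≤ (1 / 2) ^ (u * m) * (2 / 3 * θ l * J * Q ^ r) ^ m := by
      rw [pow_mul, ← mul_pow]; gcongr
    have hp : 0 < (2 / 3 * θ l * J * Q ^ r) ^ m := by positivity
    apply le_of_mul_le_mul_right _ hp
    calc _ ≤ _ := h1
      _ ≤ (1 / 2) ^ (u * m) * (2 / 3 * θ l * J * Q ^ r) ^ m * (Q ^ r) ^ n := by gcongr
      _ = _ := by ring
  have hAl : (#A : ℝ) ≤ (Q ^ r) ^ n * (1 / 2) ^ (u * m) := by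
    have h1 := caseA g r s (J / 8) (by positivity) A (by
      intro φ hφ x hx
      simp only [hA, hΦ, mem_filter, mem_univ, true_and] at hφ
      rw [← hφ.1.2, act_mem_smul]; exact hx) (by
      intro φ hφ W hW
      simp only [hA, hΦ, mem_filter, mem_univ, true_and] at hφ
      have a1 : (#{x | x ∈ kr (F := F) φ} : ℝ) = J := by
        rw [card_mem, hJ, show Module.finrank F (kr (F := F) φ) = j by omega, Nat.cast_pow]
      have a2 : (#{x | x ∈ W} : ℝ) ≤ w := by
        rw [card_mem, hw]; push_cast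
        exact pow_le_pow_right₀ hQ1 hW
      have a3 : (#{x | x ∈ kr (F := F) φ ∧ (x ∈ W ∨ ∃ l : F, act g x - l • x ∈ W)} : ℝ) ≤
          #{x | x ∈ W} * (1 + ∑ l : F, (#{x ∈ Ng g l | x ∈ kr (F := F) φ} : ℝ)) := by
        exact_mod_cast badW g (kr φ) W
      have a4 : ∑ l : F, (#{x ∈ Ng g l | x ∈ kr (F := F) φ} : ℝ) ≤
          3 / (4 * w) * J + Q * (1 / (16 * Q * w) * J) := by
        calc _ ≤ ∑ l : F, ((if l = l0 then 3 / (4 * w) * J else 0) + 1 / (16 * Q * w) * J) := by
              refine sum_le_sum fun l _ => (hφ.2 l).trans ?_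
              simp only [hθ]
              split_ifs
              · have : 0 ≤ 1 / (16 * Q * w) * J := by positivity
                linarith
              · rw [zero_add]
          _ = _ := by
              rw [sum_add_distrib, sum_ite_eq', sum_const, card_univ, nsmul_eq_mul,
                if_pos (mem_univ _)]
      have a5 : w * (1 + (3 / (4 * w) * J + Q * (1 / (16 * Q * w) * J))) = w + 13 / 16 * J := by
        field_simp; ring
      have a6 : w ≤ J / 16 := by
        have : 1 * w * 1 ≤ Q * w * Q ^ m := by gcongr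
        linarith
      have a7 : (#{x | x ∈ W} : ℝ) * (1 + ∑ l : F, (#{x ∈ Ng g l | x ∈ kr (F := F) φ} : ℝ)) ≤
          w * (1 + (3 / (4 * w) * J + Q * (1 / (16 * Q * w) * J))) :=
        mul_le_mul a2 (by linarith) (add_nonneg zero_le_one
          (sum_nonneg fun _ _ => Nat.cast_nonneg _)) hw0.le
      rw [a1]
      linarith)
    have h2 : Q ^ n ≤ (1 / 2) ^ r * (J / 8 * (Q ^ r) ^ 2) := by
      have a1 : 8 * (2 : ℝ) ^ r ≤ Q ^ r := by
        calc 8 * (2 : ℝ) ^ r = 2 ^ (3 + r) := by ring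
          _ ≤ 2 ^ (2 * r) := pow_le_pow_right₀ (by norm_num) (by omega)
          _ = 4 ^ r := by rw [pow_mul]; norm_num
          _ ≤ _ := by gcongr
      rw [one_div_pow, div_mul_eq_mul_div, one_mul, le_div_iff₀ (by positivity), ← hJQ]
      have : J * Q ^ r * (8 * 2 ^ r) ≤ J * Q ^ r * Q ^ r := by gcongr
      nlinarith
    have h3 : (Q ^ n) ^ s ≤ (1 / 2) ^ (u * m) * (J / 8 * (Q ^ r) ^ 2) ^ s := by
      calc (Q ^ n) ^ s ≤ ((1 / 2) ^ r * (J / 8 * (Q ^ r) ^ 2)) ^ s := by gcongr
        _ = (1 / 2) ^ (r * s) * (J / 8 * (Q ^ r) ^ 2) ^ s := by rw [mul_pow, pow_mul]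
        _ ≤ _ := by
          gcongr ?_ * _
          apply pow_le_pow_of_le_one (by norm_num) (by norm_num)
          calc u * m ≤ (4 * s) * m := Nat.mul_le_mul_right _ (by omega)
            _ = (4 * m) * s := by ring
            _ ≤ r * s := Nat.mul_le_mul_right _ hr
    have hp : 0 < (J / 8 * (Q ^ r) ^ 2) ^ s := by positivity
    apply le_of_mul_le_mul_right _ hp
    calc _ ≤ _ := h1
      _ ≤ (1 / 2) ^ (u * m) * (J / 8 * (Q ^ r) ^ 2) ^ s * (Q ^ r) ^ n := by gcongr
      _ = _ := by ring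
  have h1 : #Φ ≤ #A + ∑ l, #(B l) :=
    (card_le_card hsub).trans ((card_union_le _ _).trans (Nat.add_le_add_left card_biUnion_le _))
  have h2 : (#Φ : ℝ) ≤ #A + ∑ l, (#(B l) : ℝ) := by exact_mod_cast h1
  have h3 : ∑ l, (#(B l) : ℝ) ≤ Q * ((Q ^ r) ^ n * (1 / 2) ^ (u * m)) := by
    refine (sum_le_sum fun l _ => hBl l).trans ?_
    rw [sum_const, card_univ, nsmul_eq_mul]
  linarith

end Pool.Agent.H366Z.Mat
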