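import Pool.Agent.H366Z.Mat.Good
import Pool.Agent.H366Z.Mat.Fix

/-! Fixed points of non-scalar monomial maps, and the Burnside count. -/

set_option autoImplicit false
set_option linter.unusedSectionVars false

open Finset
open scoped Classical

namespace Pool.Agent.H366Z.Mat

variable {F : Type} [Field F] [Fintype F] {n : ℕ}

lemma cntK (P : Submodule F (Fin n → F) → Prop) (c : ℝ)
    (h : ∀ r ≤ n, cnt (fun K : Submodule F (Fin n → F) => Module.finrank F K + r = n ∧ P K) ≤ c) :
    cnt P ≤ (n + 1) * c := by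
  have := union_le (I := Fin (n + 1))
    (fun r (K : Submodule F (Fin n → F)) => Module.finrank F K + r = n ∧ P K) P c ?_ ?_
  · simpa using this
  · intro K hK
    have h1 : Module.finrank F K ≤ n := by simpa using K.finrank_le
    exact ⟨⟨n - Module.finrank F K, by omega⟩, by simp only; omega, hK⟩
  · intro r
    exact h r (by have := r.2; omega)

lemma L1' (hq : 3 ≤ Fintype.card F) {r : ℕ} (P : Submodule F (Fin n → F) → Prop) (ε : ℝ)
    (h : cnt (fun φ : Fin n → Fin r → F => Module.finrank F (kr (F := F) φ) + r = n ∧ P (kr φ)) ≤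
      ((Fintype.card F : ℝ) ^ r) ^ n * ε) :
    cnt (fun K : Submodule F (Fin n → F) => Module.finrank F K + r = n ∧ P K) ≤
      2 * (Fintype.card F : ℝ) ^ (r * (n - r)) * ε := by
  have := L1 hq (n := n) (r := r) P ε (by rw [cnt_eq]; exact h)
  rwa [cnt_eq] at this

lemma mul_le_half (n r : ℕ) : r * (n - r) ≤ (n / 2) * (n - n / 2) := by
  by_cases hr : r ≤ n
  · obtain ⟨j, rfl⟩ := Nat.exists_eq_add_of_le hr
    rw [Nat.add_sub_cancel_left]
    obtain ⟨c, hc | hc⟩ := Nat.even_or_odd' (r + j)
    · have e1 : (r + j) / 2 = c := by omega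
      have e2 : r + j - c = c := by omega
      rw [e1, e2]; nlinarith [sq_nonneg ((r : ℤ) - j)]
    · have e1 : (r + j) / 2 = c := by omega
      have e2 : r + j - c = c + 1 := by omega
      rw [e1, e2]
      rcases le_total r c with h | h
      · nlinarith
      · rcases h.eq_or_lt with h | h
        · subst h
          have : j = c + 1 := by omega
          rw [this]
        · nlinarith
  · rw [Nat.sub_eq_zero_of_le (by omega)]; simp

lemma pow_le_X (r : ℕ) : (Fintype.card F : ℝ) ^ (r * (n - r)) ≤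
    Fintype.card (Submodule F (Fin n → F)) := by
  have h1 := card_sub_ge (F := F) n
  have h2 : Fintype.card F ^ (r * (n - r)) ≤ Fintype.card F ^ ((n / 2) * (n - n / 2)) :=
    Nat.pow_le_pow_right Fintype.card_pos (mul_le_half n r)
  exact_mod_cast h2.trans h1

lemma L2 (hq : 3 ≤ Fintype.card F) {r : ℕ} (P : Submodule F (Fin n → F) → Prop) (ε : ℝ)
    (hε : 0 ≤ ε)
    (h : cnt (fun φ : Fin n → Fin r → F => Module.finrank F (kr (F := F) φ) + r = n ∧ P (kr φ)) ≤
      ((Fintype.card F : ℝ) ^ r) ^ n * ε) :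
    cnt (fun K : Submodule F (Fin n → F) => Module.finrank F K + r = n ∧ P K) ≤
      2 * (Fintype.card (Submodule F (Fin n → F)) : ℝ) * ε := by
  refine (L1' hq P ε h).trans ?_
  have := pow_le_X (F := F) (n := n) r
  gcongr

lemma noncentral (hq : 3 ≤ Fintype.card F) {r N M : ℕ} (hr : r ≤ n) (hN : 32 * N ≤ n)
    (hM : M ≤ N) (hM1 : 1 ≤ M) (hnc : r < 8 * N ∨ n - r < 8 * N)
    (P : Submodule F (Fin n → F) → Prop) :
    cnt (fun K : Submodule F (Fin n → F) => Module.finrank F K + r = n ∧ P K) ≤
      2 * (Fintype.card (Submodule F (Fin n → F)) : ℝ) * ((1 / 2) ^ M) ^ n := by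
  have h1 := L1' hq (r := r) P 1 ((cnt_le _).trans (by simp))
  refine h1.trans ?_
  have h2 : r * (n - r) + M * n ≤ (n / 2) * (n - n / 2) := by
    obtain ⟨j, rfl⟩ := Nat.exists_eq_add_of_le hr
    rw [Nat.add_sub_cancel_left] at hnc ⊢
    have h3 : (r + j) * (r + j) ≤ 4 * ((r + j) / 2 * (r + j - (r + j) / 2)) + 1 := by
      obtain ⟨c, hc | hc⟩ := Nat.even_or_odd' (r + j)
      · have e1 : (r + j) / 2 = c := by omega
        have e2 : r + j - c = c := by omega
        rw [e1, e2, hc]; nlinarith
      · have e1 : (r + j) / 2 = c := by omega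
        have e2 : r + j - c = c + 1 := by omega
        rw [e1, e2, hc]; nlinarith
    have h4 : 16 * (r * j) ≤ 3 * ((r + j) * (r + j)) := by
      rcases hnc with h | h
      · have : 3 * r ≤ j := by omega
        nlinarith
      · have : 3 * j ≤ r := by omega
        nlinarith
    have h5 : 32 * (M * (r + j)) ≤ (r + j) * (r + j) := by
      have : 32 * M ≤ r + j := by omega
      nlinarith
    have h6 : 32 ≤ (r + j) * (r + j) := by
      have : 32 ≤ r + j := by omega
      nlinarith
    omega
  have h3 : (Fintype.card F : ℝ) ^ (r * (n - r)) * 2 ^ (M * n) ≤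
      Fintype.card (Submodule F (Fin n → F)) := by
    have h4 := card_sub_ge (F := F) n
    have h5 : Fintype.card F ^ (r * (n - r)) * 2 ^ (M * n) ≤
        Fintype.card F ^ ((n / 2) * (n - n / 2)) := by
      refine le_trans ?_ (Nat.pow_le_pow_right Fintype.card_pos h2)
      rw [pow_add]
      exact Nat.mul_le_mul_left _ (Nat.pow_le_pow_left (by omega) _)
    exact_mod_cast h5.trans h4
  rw [mul_one, ← pow_mul, one_div, inv_pow, mul_assoc, ← div_eq_mul_inv]
  apply mul_le_mul_of_nonneg_left _ (by norm_num)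
  rwa [le_div_iff₀ (by positivity)]

lemma N_big (g : Mon F n) (l : F) {N u : ℕ} (hq : 4 ≤ Fintype.card F) (hN : 32 * N ≤ n)
    (hqN : Fintype.card F ≤ N) (hu : Fintype.card F * u ≤ N) (h : n ≤ 2 * #(Sg g l)) :
    (#(Ng g l) : ℝ) * (24 * Fintype.card F * (Fintype.card F : ℝ) ^ u * 2 ^ u) ≤
      (Fintype.card F : ℝ) ^ n := by
  obtain ⟨e, he1, he2⟩ := N_bound_two g l
  have h1 : 2 * Fintype.card F ≤ 2 ^ Fintype.card F := by
    obtain ⟨c, hc⟩ := Nat.exists_eq_add_of_le' (show 1 ≤ Fintype.card F by omega)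
    rw [hc, pow_succ, mul_comm]
    exact Nat.mul_le_mul_right _ (Nat.lt_two_pow_self)
  have h2 : 24 * Fintype.card F * Fintype.card F ^ u * 2 ^ u ≤ 2 ^ e := by
    calc 24 * Fintype.card F * Fintype.card F ^ u * 2 ^ u
        = 12 * (2 * Fintype.card F) * (2 * Fintype.card F) ^ u := by rw [mul_pow]; ring
      _ ≤ 2 ^ 4 * 2 ^ Fintype.card F * (2 ^ Fintype.card F) ^ u := by gcongr; norm_num
      _ = 2 ^ (4 + Fintype.card F + Fintype.card F * u) := by rw [← pow_mul, pow_add, pow_add]
      _ ≤ 2 ^ e := Nat.pow_le_pow_right (by norm_num) (by omega)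
  have h3 : #(Ng g l) * (24 * Fintype.card F * Fintype.card F ^ u * 2 ^ u) ≤
      Fintype.card F ^ n := (Nat.mul_le_mul_left _ h2).trans he2
  exact_mod_cast h3

lemma fix_u (hq : 4 ≤ Fintype.card F) (g : Mon F n) {N M u : ℕ} (hN : 32 * N ≤ n)
    (hqN : Fintype.card F ≤ N) (hM : M ≤ N) (hM1 : 1 ≤ M) (hu1 : 1 ≤ u)
    (hu : Fintype.card F * u ≤ N) (l0 : F) (h0 : ∀ l, l ≠ l0 → n ≤ 2 * #(Sg g l))
    (h1 : (#(Ng g l0) : ℝ) * (Fintype.card F : ℝ) ^ u ≤ (Fintype.card F : ℝ) ^ n) :
    cnt (fun K : Submodule F (Fin n → F) => g • K = K) ≤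
      (n + 1) * (2 * (Fintype.card (Submodule F (Fin n → F)) : ℝ) *
        ((Fintype.card F + 1) * (((1 / 2) ^ M) ^ n + (1 / 2) ^ (u * (2 * N))))) := by
  have hQ : (4 : ℝ) ≤ Fintype.card F := by exact_mod_cast hq
  apply cntK
  intro r hr
  have a1 : (0 : ℝ) ≤ ((1 / 2) ^ M) ^ n := by positivity
  have a2 : (0 : ℝ) ≤ (1 / 2) ^ (u * (2 * N)) := by positivity
  by_cases hnc : r < 8 * N ∨ n - r < 8 * N
  · refine (noncentral (by omega) hr hN hM hM1 hnc _).trans ?_
    apply mul_le_mul_of_nonneg_left _ (by positivity)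
    nlinarith
  · have huN : u ≤ N := le_trans (Nat.le_mul_of_pos_left _ (by omega)) hu
    have h2 := fix_phi hq g u (2 * N) r (n - r) hu1 (by omega) (by omega) (by omega) ?_ l0
      (fun l hl => N_big g l hq hN hqN hu (h0 l hl)) ?_
    · rw [cnt_eq] at h2
      refine (L2 (by omega) (fun K => g • K = K) _ (by positivity) h2).trans ?_
      apply mul_le_mul_of_nonneg_left _ (by positivity)
      nlinarith
    · intro l
      by_cases hl : l = l0
      · rw [hl]; exact h1
      · refine le_trans ?_ (N_big g l hq hN hqN hu (h0 l hl))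
        apply mul_le_mul_of_nonneg_left _ (by positivity)
        have b1 : (1 : ℝ) ≤ 2 ^ u := one_le_pow₀ (by norm_num)
        have b2 : (0 : ℝ) ≤ (Fintype.card F : ℝ) ^ u := by positivity
        have b3 : (1 : ℝ) ≤ 24 * Fintype.card F * 2 ^ u := by nlinarith
        nlinarith
    · have b : 48 * Fintype.card F * Fintype.card F ^ u * Fintype.card F ^ (2 * N) ≤
          Fintype.card F ^ (n - r) := by
        have b1 : 48 ≤ Fintype.card F ^ 3 := le_trans (by norm_num) (Nat.pow_le_pow_left hq 3)
        calc _ ≤ Fintype.card F ^ 3 * Fintype.card F * Fintype.card F ^ u *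
              Fintype.card F ^ (2 * N) := by gcongr
          _ = Fintype.card F ^ (3 + 1 + u + 2 * N) := by rw [pow_add, pow_add, pow_add, pow_one]
          _ ≤ _ := Nat.pow_le_pow_right (by omega) (by omega)
      exact_mod_cast b

lemma fix_g (hq : 4 ≤ Fintype.card F) (g : Mon F n) {N T M : ℕ} (hN : 32 * N ≤ n)
    (hN' : n ≤ 64 * N) (hqN : Fintype.card F ≤ N) (hT : Fintype.card F * T ≤ N)
    (hM : 32 * M ≤ T) (hM1 : 1 ≤ M) (hg : ∀ c, g ≠ scal c) :
    cnt (fun K : Submodule F (Fin n → F) => g • K = K) ≤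
      (n + 1) * (2 * (Fintype.card (Submodule F (Fin n → F)) : ℝ) *
        ((Fintype.card F + 1) * (2 * ((1 / 2) ^ M) ^ n + ∑ l : F,
          if g.α = RingEquiv.refl F ∧ (Sg g l).Nonempty then ((1 / 2 : ℝ) ^ M) ^ #(Sg g l)
          else 0))) := by
  have hTN : T ≤ N := le_trans (Nat.le_mul_of_pos_left _ (by omega)) hT
  have hs0 : ∀ l ∈ (univ : Finset F), (0 : ℝ) ≤
      if g.α = RingEquiv.refl F ∧ (Sg g l).Nonempty then ((1 / 2 : ℝ) ^ M) ^ #(Sg g l) else 0 := by
    intro l _
    split_ifs
    · positivity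
    · exact le_rfl
  have hTb : (1 / 2 : ℝ) ^ (T * (2 * N)) ≤ ((1 / 2) ^ M) ^ n := by
    rw [← pow_mul]
    apply pow_le_pow_of_le_one (by norm_num) (by norm_num)
    nlinarith
  by_cases hall : ∀ l, n ≤ 2 * #(Sg g l)
  · have h1 := fix_u hq g hN hqN (M := M) (u := T) (by omega) hM1 (by omega) hT 0
      (fun l _ => hall l) ?_
    · refine h1.trans ?_
      have := sum_nonneg hs0
      apply mul_le_mul_of_nonneg_left _ (by positivity)
      apply mul_le_mul_of_nonneg_left _ (by positivity)
      apply mul_le_mul_of_nonneg_left _ (by positivity)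
      linarith
    · refine le_trans ?_ (N_big g 0 hq hN hqN hT (hall 0))
      apply mul_le_mul_of_nonneg_left _ (by positivity)
      have hQ : (4 : ℝ) ≤ Fintype.card F := by exact_mod_cast hq
      have b1 : (1 : ℝ) ≤ 2 ^ T := one_le_pow₀ (by norm_num)
      have b2 : (0 : ℝ) ≤ (Fintype.card F : ℝ) ^ T := by positivity
      have b3 : (1 : ℝ) ≤ 24 * Fintype.card F * 2 ^ T := by nlinarith
      nlinarith
  · push Not at hall
    obtain ⟨l0, hl0⟩ := hall
    have hex : ∃ i, i ∉ Sg g l0 := by
      by_contra h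
      push Not at h
      have : Sg g l0 = univ := eq_univ_of_forall h
      rw [this, card_univ, Fintype.card_fin] at hl0
      omega
    obtain ⟨i0, hi0⟩ := hex
    simp only [Sg, mem_filter, mem_univ, true_and, not_or, not_not] at hi0
    have hα := hi0.2.2
    have hne : (Sg g l0).Nonempty := by
      by_contra h
      rw [not_nonempty_iff_eq_empty] at h
      have h' : ∀ i, g.σ i = i ∧ g.d i = l0 := by
        intro i
        have : i ∉ Sg g l0 := by rw [h]; exact notMem_empty _
        simp only [Sg, mem_filter, mem_univ, true_and, not_or, not_not] at this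
        exact ⟨this.1, this.2.1⟩
      apply hg ⟨l0, hi0.2.1 ▸ g.hd i0⟩
      apply Mon.ext
      · ext i; simp [scal, (h' i).1]
      · funext i; exact (h' i).2
      · exact hα
    have hpos := card_pos.2 hne
    have h0 : ∀ l, l ≠ l0 → n ≤ 2 * #(Sg g l) := by
      intro l hl
      have : (univ : Finset (Fin n)) ⊆ Sg g l ∪ Sg g l0 := by
        intro i _
        simp only [Sg, mem_filter, mem_univ, true_and, mem_union]
        by_cases h : g.d i = l
        · right; right; left; rw [h]; exact hl
        · left; right; left; exact h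
      have h2 := (card_le_card this).trans (card_union_le _ _)
      rw [card_univ, Fintype.card_fin] at h2
      omega
    have h1 := fix_u hq g hN hqN (M := M) (u := min ((#(Sg g l0) + 1) / 2) T) (by omega) hM1
      (by omega) (le_trans (Nat.mul_le_mul_left _ (min_le_right _ _)) hT) l0 h0 ?_
    · refine h1.trans ?_
      have h2 := single_le_sum hs0 (mem_univ l0)
      rw [if_pos ⟨hα, hne⟩] at h2
      have h3 : (1 / 2 : ℝ) ^ (min ((#(Sg g l0) + 1) / 2) T * (2 * N)) ≤
          ((1 / 2) ^ M) ^ n + ((1 / 2) ^ M) ^ #(Sg g l0) := by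
        rcases min_choice ((#(Sg g l0) + 1) / 2) T with h | h <;> rw [h]
        · refine le_trans ?_ (le_add_of_nonneg_left (by positivity))
          rw [← pow_mul]
          apply pow_le_pow_of_le_one (by norm_num) (by norm_num)
          have c1 : #(Sg g l0) ≤ (#(Sg g l0) + 1) / 2 * 2 := by omega
          have c2 : M ≤ N := by omega
          nlinarith
        · exact hTb.trans (le_add_of_nonneg_right (by positivity))
      apply mul_le_mul_of_nonneg_left _ (by positivity)
      apply mul_le_mul_of_nonneg_left _ (by positivity)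
      apply mul_le_mul_of_nonneg_left _ (by positivity)
      linarith
    · obtain ⟨e, he1, he2⟩ := N_bound_lin g l0 hα
      have h3 : #(Ng g l0) * Fintype.card F ^ (min ((#(Sg g l0) + 1) / 2) T) ≤
          Fintype.card F ^ n :=
        (Nat.mul_le_mul_left _ (Nat.pow_le_pow_right (by omega) (by omega))).trans he2
      exact_mod_cast h3

lemma sum_w (l : F) (y : ℝ) (hy : 0 ≤ y) :
    ∑ g : Mon F n, (if g.α = RingEquiv.refl F ∧ (Sg g l).Nonempty then y ^ #(Sg g l) else 0) ≤
      (1 + n * Fintype.card F * y) ^ n - 1 := by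
  let W : (Fin n → Fin n × F) → ℝ := fun f => ∏ i, if f i = (i, l) then 1 else y
  have hW0 : ∀ f, 0 ≤ W f := fun f => prod_nonneg fun i _ => by split_ifs <;> positivity
  have h1 : ∑ f, W f ≤ (1 + n * Fintype.card F * y) ^ n := by
    have := prod_univ_sum (fun _ : Fin n => (univ : Finset (Fin n × F)))
      (fun i p => if p = (i, l) then (1 : ℝ) else y)
    rw [Fintype.piFinset_univ] at this
    rw [← this]
    calc _ ≤ ∏ _i : Fin n, (1 + n * Fintype.card F * y) := by
          apply prod_le_prod
          · intro i _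
            exact sum_nonneg fun p _ => by split_ifs <;> positivity
          · intro i _
            calc _ ≤ ∑ p : Fin n × F, ((if p = (i, l) then (1 : ℝ) else 0) + y) := by
                  apply sum_le_sum
                  intro p _
                  split_ifs <;> linarith
              _ = _ := by rw [sum_add_distrib]; simp
      _ = _ := by simp
  let ι : Mon F n → Fin n → Fin n × F := fun g i => (g.σ i, g.d i)
  let f0 : Fin n → Fin n × F := fun i => (i, l)
  have h2 : W f0 = 1 := by simp [W, f0]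
  rw [← sum_filter]
  have h3 : ∀ g ∈ univ.filter (fun g : Mon F n => g.α = RingEquiv.refl F ∧ (Sg g l).Nonempty),
      y ^ #(Sg g l) = W (ι g) := by
    intro g hg
    have hα := (mem_filter.1 hg).2.1
    rw [← prod_const, Sg, prod_filter]
    refine prod_congr rfl fun i _ => ?_
    simp only [ι, hα, ne_eq, not_true, or_false, Prod.mk.injEq]
    by_cases a : g.σ i = i <;> by_cases b : g.d i = l <;> simp [a, b]
  rw [sum_congr rfl h3, ← sum_image (g := ι) (f := W)]
  · have h4 := sum_erase_eq_sub (f := W) (mem_univ f0)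
    refine le_trans (sum_le_sum_of_subset_of_nonneg (t := univ.erase f0) ?_
      fun f _ _ => hW0 f) ?_
    · intro f hf
      obtain ⟨g, hg, rfl⟩ := mem_image.1 hf
      obtain ⟨hα, i, hi⟩ := (mem_filter.1 hg).2
      refine mem_erase.2 ⟨fun e => ?_, mem_univ _⟩
      have := congrFun e i
      simp only [ι, f0, Prod.mk.injEq] at this
      simp [Sg, this.1, this.2, hα] at hi
    · rw [h4, h2]; linarith
  · intro g hg g' hg' e
    have a1 := (mem_filter.1 (mem_coe.1 hg)).2.1
    have a2 := (mem_filter.1 (mem_coe.1 hg')).2.1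
    apply Mon.ext
    · ext i; exact congrArg Fin.val (congrArg Prod.fst (congrFun e i))
    · funext i; exact congrArg Prod.snd (congrFun e i)
    · rw [a1, a2]

end Pool.Agent.H366Z.Mat
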