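import Mathlib

/-! Counting lemmas for subspaces of `F ^ n`. -/

set_option autoImplicit false
set_option linter.unusedSectionVars false

open Finset
open scoped Classical

namespace Pool.Agent.H366Z.Mat

lemma fib {W A : Type*} [AddCommGroup W] [AddCommGroup A] [Fintype W] [Fintype A]
    (f : W →+ A) (hf : Function.Surjective f) (y : A) :
    #{w | f w = y} * Fintype.card A = Fintype.card W := by
  have h : Fintype.card W = ∑ a : A, #{w | f w = a} := by
    rw [← card_univ, card_eq_sum_card_fiberwise (f := f) (t := univ) (fun _ _ => mem_univ _)]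
  rw [h]
  have : ∀ a : A, #{w | f w = a} = #{w | f w = y} := fun a =>
    AddMonoidHom.card_fiber_eq_of_mem_range f (hf a) (hf y)
  simp only [this, sum_const, card_univ, smul_eq_mul, mul_comm]

lemma dc {α β : Type*} (s : Finset α) (t : Finset β) (r : α → β → Prop)
    [∀ a b, Decidable (r a b)] (c D : ℝ)
    (h1 : ∀ a ∈ s, c ≤ (#{b ∈ t | r a b} : ℝ)) (h2 : ∀ b ∈ t, (#{a ∈ s | r a b} : ℝ) ≤ D) :
    #s * c ≤ #t * D := by
  have := card_nsmul_le_card_nsmul (s := s) (t := t) r (m := c) (n := D) h1 h2
  simpa [nsmul_eq_mul] using this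

lemma greedy {X : Type*} [Fintype X] (P : ∀ m, (Fin m → X) → Prop) (c : ℝ) (hc : 0 ≤ c) (s : ℕ)
    (h0 : ∀ v, P 0 v)
    (hstep : ∀ m < s, ∀ v, P m v → c ≤ (#{x | P (m + 1) (Fin.cons x v)} : ℝ)) :
    c ^ s ≤ (#{v : Fin s → X | P s v} : ℝ) := by
  induction s with
  | zero => simp [h0]
  | succ s ih =>
    have ih' := ih fun m hm => hstep m (by omega)
    have h1 : (#{v : Fin s → X | P s v} : ℝ) * c ≤ #{v : Fin (s + 1) → X | P (s + 1) v} * 1 := by
      apply dc _ _ (fun (v : Fin s → X) (w : Fin (s + 1) → X) => (Fin.tail w : Fin s → X) = v)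
      · intro v hv
        refine (hstep s (by omega) v (mem_filter.1 hv).2).trans ?_
        norm_cast
        apply card_le_card_of_injOn (fun x => (Fin.cons x v : Fin (s + 1) → X))
        · intro x hx
          simp only [coe_filter, mem_univ, true_and, Set.mem_ofPred_eq, mem_filter] at hx ⊢
          exact ⟨hx, Fin.tail_cons _ _⟩
        · intro x _ y _ h
          simpa using congrFun h 0
      · intro w _
        norm_cast
        apply card_le_one.2
        intro a ha b hb
        rw [← (mem_filter.1 ha).2, ← (mem_filter.1 hb).2]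
    calc c ^ (s + 1) = c ^ s * c := pow_succ _ _
      _ ≤ #{v : Fin s → X | P s v} * c := by gcongr
      _ ≤ _ := by simpa using h1

variable {F : Type} [Field F] [Fintype F]

/-- kernel of the matrix with columns `φ` -/
noncomputable def kr {n : ℕ} {W : Type} [AddCommGroup W] [Module F W] (φ : Fin n → W) :
    Submodule F (Fin n → F) := LinearMap.ker (Fintype.linearCombination F φ)

lemma mem_kr {n : ℕ} {W : Type} [AddCommGroup W] [Module F W] (φ : Fin n → W) (x : Fin n → F) :
    x ∈ kr (F := F) φ ↔ ∑ i, x i • φ i = 0 := by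
  rw [kr, LinearMap.mem_ker, Fintype.linearCombination_apply]

lemma lc_basis {n : ℕ} {W : Type} [AddCommGroup W] [Module F W] (g : (Fin n → F) →ₗ[F] W) :
    Fintype.linearCombination F (fun j => g (Pi.single j 1)) = g := by
  apply LinearMap.pi_ext'
  intro j
  ext
  simp

lemma card_kill {n r : ℕ} {ι : Type} [Fintype ι] (x : ι → Fin n → F)
    (hx : LinearIndependent F x) :
    #{φ : Fin n → Fin r → F | ∀ i, x i ∈ kr (F := F) φ} * (Fintype.card F ^ r) ^ Fintype.card ι =
      (Fintype.card F ^ r) ^ n := by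
  let ev : (Fin n → Fin r → F) →+ (ι → Fin r → F) :=
    { toFun := fun φ i => ∑ j, x i j • φ j
      map_zero' := by funext i; simp
      map_add' := fun φ ψ => by funext i; simp [sum_add_distrib] }
  have hs : Function.Surjective ev := by
    intro w
    obtain ⟨g, hg⟩ := ((Module.Basis.span hx).constr F w).exists_extend
    refine ⟨fun j => g (Pi.single j 1), funext fun i => ?_⟩
    have h1 : ∑ j, x i j • g (Pi.single j 1) = g (x i) := by
      rw [← Fintype.linearCombination_apply, lc_basis]
    show ∑ j, x i j • g (Pi.single j 1) = w i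
    rw [h1]
    have h2 := LinearMap.congr_fun hg (Module.Basis.span hx i)
    rw [Module.Basis.constr_basis] at h2
    rw [← h2]
    simp
  have := fib ev hs 0
  simp only [Fintype.card_fun, Fintype.card_fin] at this
  rw [← this]
  congr 2
  ext φ
  simp only [mem_filter, mem_univ, true_and, mem_kr]
  exact ⟨fun h => funext h, fun h i => congrFun h i⟩

lemma prod_bound (q : ℝ) (hq : 3 ≤ q) (r : ℕ) :
    (1 + (1 / q) ^ r) / 2 * (q ^ r) ^ r ≤ ∏ i : Fin r, (q ^ r - q ^ (i : ℕ)) := by
  have hq0 : 0 < q := by linarith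
  induction r with
  | zero => simp
  | succ r ih =>
    rw [Fin.prod_univ_succ]
    have e : ∏ i : Fin r, (q ^ (r + 1) - q ^ ((i.succ : Fin (r + 1)) : ℕ)) =
        q ^ r * ∏ i : Fin r, (q ^ r - q ^ (i : ℕ)) := by
      have : ∀ i : Fin r, q ^ (r + 1) - q ^ ((i.succ : Fin (r + 1)) : ℕ) =
          q * (q ^ r - q ^ (i : ℕ)) := fun i => by rw [Fin.val_succ]; ring
      simp only [this]
      rw [prod_mul_distrib]; simp
    rw [e]
    simp only [Fin.val_zero, pow_zero]
    have hq1 : 1 ≤ q ^ (r + 1) := one_le_pow₀ (by linarith)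
    set Q := q ^ r with hQ
    have hQ0 : 0 < Q := by positivity
    have e1 : (1 / q) ^ r = 1 / Q := by rw [hQ]; simp
    have e2 : (1 / q) ^ (r + 1) = 1 / (Q * q) := by rw [hQ, ← pow_succ]; simp
    have e3 : (q ^ (r + 1)) ^ (r + 1) = (Q * q) * (Q * Q ^ r) := by
      rw [pow_succ (q ^ (r + 1)), pow_succ q r, mul_pow, ← hQ]; ring
    rw [e1] at ih
    rw [e2, e3, pow_succ q r, ← hQ]
    rw [pow_succ q r, ← hQ] at hq1
    have hQ1 : 1 ≤ Q := one_le_pow₀ (by linarith)
    calc (1 + 1 / (Q * q)) / 2 * (Q * q * (Q * Q ^ r)) = (Q * q + 1) / 2 * (Q * Q ^ r) := by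
          field_simp
      _ ≤ (Q * q - 1) * (Q + 1) / (2 * Q) * (Q * Q ^ r) := by
          apply mul_le_mul_of_nonneg_right _ (by positivity)
          rw [div_le_div_iff₀ (by norm_num) (by positivity)]
          nlinarith
      _ = (Q * q - 1) * (Q * ((1 + 1 / Q) / 2 * Q ^ r)) := by field_simp
      _ ≤ _ := by
          gcongr

lemma card_GL_ge (hq : 3 ≤ Fintype.card F) (r : ℕ) :
    ((Fintype.card F : ℝ) ^ r) ^ r / 2 ≤ #{s : Fin r → Fin r → F | LinearIndependent F s} := by
  have h := card_linearIndependent (K := F) (V := Fin r → F) (k := r) (by simp)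
  rw [Nat.card_eq_fintype_card, Fintype.card_subtype] at h
  simp only [Module.finrank_fintype_fun_eq_card, Fintype.card_fin] at h
  have h1 := prod_bound (Fintype.card F) (by exact_mod_cast hq) r
  have h2 : (#{s : Fin r → Fin r → F | LinearIndependent F s} : ℝ) =
      ∏ i : Fin r, ((Fintype.card F : ℝ) ^ r - (Fintype.card F : ℝ) ^ (i : ℕ)) := by
    have h' : #{s : Fin r → Fin r → F | LinearIndependent F s} =
        ∏ i : Fin r, (Fintype.card F ^ r - Fintype.card F ^ (i : ℕ)) := by
      convert h
    rw [h', Nat.cast_prod]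
    refine prod_congr rfl fun i _ => ?_
    rw [Nat.cast_sub (Nat.pow_le_pow_right (by omega) i.2.le)]
    simp
  rw [h2]
  refine le_trans ?_ h1
  have : (0 : ℝ) ≤ (1 / (Fintype.card F : ℝ)) ^ r := by positivity
  have h3 : (0 : ℝ) ≤ ((Fintype.card F : ℝ) ^ r) ^ r := by positivity
  nlinarith

lemma exists_kr {n r : ℕ} (K : Submodule F (Fin n → F)) (hK : Module.finrank F K + r = n) :
    ∃ π : (Fin n → F) →ₗ[F] (Fin r → F), Function.Surjective π ∧ LinearMap.ker π = K := by
  have h1 : Module.finrank F ((Fin n → F) ⧸ K) = Module.finrank F (Fin r → F) := by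
    have := K.finrank_quotient_add_finrank
    simp only [Module.finrank_fintype_fun_eq_card, Fintype.card_fin] at this ⊢
    omega
  let e := LinearEquiv.ofFinrankEq _ _ h1
  refine ⟨e.toLinearMap ∘ₗ K.mkQ, e.surjective.comp K.mkQ_surjective, ?_⟩
  rw [LinearEquiv.ker_comp, Submodule.ker_mkQ]

lemma card_kr_ge (hq : 3 ≤ Fintype.card F) {n r : ℕ} (K : Submodule F (Fin n → F))
    (hK : Module.finrank F K + r = n) :
    ((Fintype.card F : ℝ) ^ r) ^ r / 2 ≤ #{φ : Fin n → Fin r → F | kr (F := F) φ = K} := by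
  refine (card_GL_ge hq r).trans ?_
  norm_cast
  obtain ⟨π, hπ, hk⟩ := exists_kr K hK
  apply card_le_card_of_injOn
    (fun s : Fin r → Fin r → F =>
      fun j => (Fintype.linearCombination F s ∘ₗ π) (Pi.single j 1))
  · intro s hs
    simp only [coe_filter, mem_univ, true_and, Set.mem_ofPred_eq] at hs ⊢
    rw [kr, lc_basis, LinearMap.ker_comp, LinearMap.ker_eq_bot.2
      (linearIndependent_iff_injective_fintypeLinearCombination.1 hs), Submodule.comap_bot, hk]
  · intro s _ s' _ h
    have h1 : Fintype.linearCombination F s ∘ₗ π = Fintype.linearCombination F s' ∘ₗ π := by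
      rw [← lc_basis (Fintype.linearCombination F s ∘ₗ π),
        ← lc_basis (Fintype.linearCombination F s' ∘ₗ π)]
      congr 1
    funext i
    obtain ⟨y, hy⟩ := hπ (Pi.single i 1)
    have := LinearMap.congr_fun h1 y
    simpa [hy] using this

/-- transfer of a bound on matrices to a bound on subspaces -/
lemma L1 (hq : 3 ≤ Fintype.card F) {n r : ℕ} (P : Submodule F (Fin n → F) → Prop) (ε : ℝ)
    (h : (#{φ : Fin n → Fin r → F | Module.finrank F (kr (F := F) φ) + r = n ∧ P (kr φ)} : ℝ) ≤
      ((Fintype.card F : ℝ) ^ r) ^ n * ε) :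
    (#{K : Submodule F (Fin n → F) | Module.finrank F K + r = n ∧ P K} : ℝ) ≤
      2 * (Fintype.card F : ℝ) ^ (r * (n - r)) * ε := by
  by_cases hr : r ≤ n
  swap
  · have : #{K : Submodule F (Fin n → F) | Module.finrank F K + r = n ∧ P K} = 0 := by
      rw [card_eq_zero, filter_eq_empty_iff]
      intro K _ hK; omega
    rw [this]
    have h0 : (0 : ℝ) ≤ ((Fintype.card F : ℝ) ^ r) ^ n * ε := le_trans (by positivity) h
    have hp : (0 : ℝ) < ((Fintype.card F : ℝ) ^ r) ^ n := by
      have : (0 : ℝ) < Fintype.card F := by exact_mod_cast (by omega : 0 < Fintype.card F)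
      positivity
    have : 0 ≤ ε := by
      by_contra hne
      push Not at hne
      nlinarith
    rw [Nat.cast_zero]
    positivity
  have hq0 : (0 : ℝ) < Fintype.card F := by exact_mod_cast (by omega : 0 < Fintype.card F)
  have h1 := dc (univ.filter fun K : Submodule F (Fin n → F) => Module.finrank F K + r = n ∧ P K)
    (univ.filter fun φ : Fin n → Fin r → F => Module.finrank F (kr (F := F) φ) + r = n ∧ P (kr φ))
    (fun K φ => kr (F := F) φ = K) (((Fintype.card F : ℝ) ^ r) ^ r / 2) 1 ?_ ?_
  · have e : ((Fintype.card F : ℝ) ^ r) ^ n =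
        (Fintype.card F : ℝ) ^ (r * (n - r)) * ((Fintype.card F : ℝ) ^ r) ^ r := by
      rw [pow_mul, ← pow_add]; congr 1; omega
    rw [mul_one] at h1
    have h2 := h1.trans h
    rw [e] at h2
    have hp : (0 : ℝ) < ((Fintype.card F : ℝ) ^ r) ^ r := by positivity
    apply le_of_mul_le_mul_right _ hp
    linarith
  · intro K hK
    have hK' := (mem_filter.1 hK).2
    refine (card_kr_ge hq K hK'.1).trans ?_
    norm_cast
    apply card_le_card
    intro φ hφ
    have := (mem_filter.1 hφ).2
    simp only [mem_filter, mem_univ, true_and]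
    rw [this]; exact ⟨hK', rfl⟩
  · intro φ _
    norm_cast
    apply card_le_one.2
    intro a ha b hb
    rw [← (mem_filter.1 ha).2, ← (mem_filter.1 hb).2]

lemma card_sub_ge (n : ℕ) :
    Fintype.card F ^ ((n / 2) * (n - n / 2)) ≤ Fintype.card (Submodule F (Fin n → F)) := by
  set a := n / 2
  set b := n - n / 2
  have hab : a + b = n := by omega
  let e : ((Fin a → F) × (Fin b → F)) ≃ₗ[F] (Fin n → F) :=
    LinearEquiv.ofFinrankEq _ _ (by simp [hab])
  let f : (Fin a → Fin b → F) → Submodule F (Fin n → F) :=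
    fun A => (Fintype.linearCombination F A).graph.map e.toLinearMap
  have hf : Function.Injective f := by
    intro A B h
    have h1 := Submodule.map_injective_of_injective (f := e.toLinearMap) e.injective h
    funext i
    have h2 : ((Pi.single i 1 : Fin a → F), A i) ∈ (Fintype.linearCombination F A).graph := by
      simp
    rw [h1] at h2
    simpa using h2
  have := Fintype.card_le_of_injective f hf
  simpa [Fintype.card_fun, ← pow_mul, mul_comm] using this

end Pool.Agent.H366Z.Mat
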