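import Pool.Agent.H366Z.Mat.Uniq

/-! Almost all matrices of central rank are `Good`. -/

set_option autoImplicit false
set_option linter.unusedSectionVars false

open Finset
open scoped Classical

namespace Pool.Agent.H366Z.Mat

/-- number of points with a property, as a real number -/
noncomputable def cnt {X : Type} (P : X → Prop) : ℝ := Nat.card {x // P x}

lemma cnt_eq {X : Type} [Fintype X] (P : X → Prop) [DecidablePred P] :
    (#{x | P x} : ℝ) = cnt P := by
  rw [cnt, Nat.card_eq_fintype_card, Fintype.card_subtype]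

lemma cnt_nonneg {X : Type} (P : X → Prop) : 0 ≤ cnt P := Nat.cast_nonneg _

lemma cnt_mono {X : Type} [Fintype X] {P Q : X → Prop} (h : ∀ x, P x → Q x) : cnt P ≤ cnt Q := by
  rw [← cnt_eq, ← cnt_eq]
  norm_cast
  apply card_le_card
  intro x hx
  exact mem_filter.2 ⟨mem_univ _, h x (mem_filter.1 hx).2⟩

lemma cnt_congr {X : Type} {P Q : X → Prop} (h : ∀ x, P x ↔ Q x) : cnt P = cnt Q := by
  rw [show P = Q from funext fun x => propext (h x)]

lemma cnt_false {X : Type} {P : X → Prop} (h : ∀ x, ¬ P x) : cnt P = 0 := by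
  have : IsEmpty {x // P x} := ⟨fun x => h x.1 x.2⟩
  simp [cnt]

lemma cnt_le {X : Type} [Fintype X] (P : X → Prop) : cnt P ≤ Fintype.card X := by
  rw [← cnt_eq]; norm_cast; exact card_le_univ _

lemma cnt_or {X : Type} [Fintype X] {P Q R : X → Prop} (h : ∀ x, R x → P x ∨ Q x) :
    cnt R ≤ cnt P + cnt Q := by
  rw [← cnt_eq, ← cnt_eq, ← cnt_eq]
  norm_cast
  refine le_trans (card_le_card ?_) (card_union_le _ _)
  intro x hx
  simp only [mem_filter, mem_univ, true_and, mem_union] at hx ⊢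
  exact h x hx

lemma cnt_add_not {X : Type} [Fintype X] (P : X → Prop) :
    cnt P + cnt (fun x => ¬ P x) = Fintype.card X := by
  rw [← cnt_eq, ← cnt_eq]
  exact_mod_cast card_filter_add_card_filter_not (s := (univ : Finset X)) P

lemma cnt_fib {W A : Type} [AddCommGroup W] [AddCommGroup A] [Fintype W] [Fintype A]
    (f : W →+ A) (hf : Function.Surjective f) (y : A) :
    cnt (fun w => f w = y) * Fintype.card A = Fintype.card W := by
  rw [← cnt_eq]
  exact_mod_cast fib f hf y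

lemma cnt_dc {X Y : Type} [Fintype X] [Fintype Y] (P : X → Prop) (Q : Y → Prop)
    (r : X → Y → Prop) (c D : ℝ) (h1 : ∀ x, P x → c ≤ cnt fun y => Q y ∧ r x y)
    (h2 : ∀ y, Q y → cnt (fun x => P x ∧ r x y) ≤ D) : cnt P * c ≤ cnt Q * D := by
  rw [← cnt_eq, ← cnt_eq]
  apply dc _ _ r
  · intro x hx
    rw [filter_filter, cnt_eq]; exact h1 x (mem_filter.1 hx).2
  · intro y hy
    rw [filter_filter, cnt_eq]; exact h2 y (mem_filter.1 hy).2

lemma one_le_cnt {X : Type} [Fintype X] {P : X → Prop} (x : X) (h : P x) : 1 ≤ cnt P := by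
  rw [← cnt_eq]; norm_cast
  exact card_pos.2 ⟨x, mem_filter.2 ⟨mem_univ _, h⟩⟩

lemma cnt_inj {X Y : Type} [Fintype X] [Fintype Y] {P : X → Prop} {Q : Y → Prop} (f : X → Y)
    (h1 : ∀ x, P x → Q (f x)) (h2 : ∀ x y, P x → P y → f x = f y → x = y) : cnt P ≤ cnt Q := by
  rw [← cnt_eq, ← cnt_eq]
  norm_cast
  apply card_le_card_of_injOn f
  · intro x hx
    simp only [coe_filter, mem_univ, true_and, Set.mem_ofPred_eq] at hx ⊢
    exact h1 x hx
  · intro x hx y hy e
    simp only [coe_filter, mem_univ, true_and, Set.mem_ofPred_eq] at hx hy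
    exact h2 x y hx hy e

lemma cnt_true (X : Type) [Fintype X] : cnt (fun _ : X => True) = Fintype.card X := by
  rw [← cnt_eq]; simp

lemma cond {X : Type} [Fintype X] (a b : ℕ) (Q : (Fin a → X) → Prop)
    (P : (Fin a → X) → (Fin b → X) → Prop) (c : ℝ)
    (h : ∀ u, Q u → cnt (P u) ≤ c) :
    cnt (fun φ : Fin (a + b) → X => Q (fun i => φ (Fin.castAdd b i)) ∧
      P (fun i => φ (Fin.castAdd b i)) (fun i => φ (Fin.natAdd a i))) ≤ cnt Q * c := by
  have := cnt_dc (fun φ : Fin (a + b) → X => Q (fun i => φ (Fin.castAdd b i)) ∧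
      P (fun i => φ (Fin.castAdd b i)) (fun i => φ (Fin.natAdd a i))) Q
    (fun φ u => (fun i => φ (Fin.castAdd b i)) = u) 1 c ?_ ?_
  · rwa [mul_one] at this
  · intro φ hφ
    exact one_le_cnt _ ⟨hφ.1, rfl⟩
  · intro u hu
    refine le_trans ?_ (h u hu)
    apply cnt_inj (fun φ i => φ (Fin.natAdd a i))
    · intro φ hφ
      rw [← hφ.2]; exact hφ.1.2
    · intro φ ψ hφ hψ e
      funext i
      refine Fin.addCases (fun i => ?_) (fun i => ?_) i
      · exact congrFun (hφ.2.trans hψ.2.symm) i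
      · exact congrFun e i

lemma card_all {X : Type} [Fintype X] (b : ℕ) (S : X → Prop) :
    cnt (fun v : Fin b → X => ∀ e, S (v e)) = cnt S ^ b := by
  rw [← cnt_eq, ← cnt_eq]
  have : (univ.filter fun v : Fin b → X => ∀ e, S (v e)) =
      Fintype.piFinset fun _ : Fin b => univ.filter S := by
    ext v; simp
  rw [this, Fintype.card_piFinset]; simp

lemma union_le {X I : Type} [Fintype X] [Fintype I] (P : I → X → Prop) (R : X → Prop) (c : ℝ)
    (hR : ∀ x, R x → ∃ i, P i x) (h : ∀ i, cnt (P i) ≤ c) :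
    cnt R ≤ Fintype.card I * c := by
  have := cnt_dc R (fun _ : I => True) (fun x i => P i x) 1 c ?_ ?_
  · rwa [mul_one, cnt_true] at this
  · intro x hx
    obtain ⟨i, hi⟩ := hR x hx
    exact one_le_cnt i ⟨trivial, hi⟩
  · intro i _
    exact le_trans (cnt_mono fun x hx => hx.2) (h i)

variable {F : Type} [Field F] [Fintype F]

def Sp {a r : ℕ} (u : Fin a → Fin r → F) (ε : Fin r → Fin a)
    (co : Fin r → (Fin r → F) →ₗ[F] F) : Prop :=
  (∀ l l', co l (u (ε l')) = if l = l' then 1 else 0) ∧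
    ∀ v, v ∈ Submodule.span F (u '' Set.range ε)

lemma sp_of_top {a r : ℕ} (u : Fin a → Fin r → F) (h : Submodule.span F (Set.range u) = ⊤) :
    ∃ ε co, Sp u ε co := by
  obtain ⟨κ, f, hf, hsp, hli⟩ := exists_linearIndependent' F u
  have : Finite κ := Finite.of_injective f hf
  let _ := Fintype.ofFinite κ
  let B : Module.Basis κ F (Fin r → F) := Module.Basis.mk hli (by rw [hsp, h])
  have hc : Fintype.card κ = r := by
    rw [← Module.finrank_eq_card_basis B]; simp
  let e : κ ≃ Fin r := Fintype.equivFinOfCardEq hc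
  refine ⟨fun l => f (e.symm l), fun l => B.coord (e.symm l), fun l l' => ?_, fun v => ?_⟩
  · have : u (f (e.symm l')) = B (e.symm l') := by simp [B]
    rw [this, Module.Basis.coord_apply, Module.Basis.repr_self, Finsupp.single_apply]
    simp [eq_comm]
  · have : u '' Set.range (fun l => f (e.symm l)) = Set.range (u ∘ f) := by
      ext w
      simp only [Set.mem_image, Set.mem_range, Function.comp_apply]
      constructor
      · rintro ⟨_, ⟨l, rfl⟩, rfl⟩; exact ⟨_, rfl⟩
      · rintro ⟨l, rfl⟩; exact ⟨f l, ⟨e l, by simp⟩, rfl⟩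
    rw [this, hsp, h]; trivial

lemma bad1 (a r : ℕ) :
    cnt (fun u : Fin a → Fin r → F => ¬ ∃ ε co, Sp u ε co) ≤
      (Fintype.card F : ℝ) ^ r * ((Fintype.card F : ℝ) ^ r / Fintype.card F) ^ a := by
  have hq : (0 : ℝ) < Fintype.card F := by exact_mod_cast Fintype.card_pos
  have := union_le (X := Fin a → Fin r → F) (I := Fin r → F)
    (fun c u => c ≠ 0 ∧ ∀ e, Fintype.linearCombination F c (u e) = 0)
    (fun u => ¬ ∃ ε co, Sp u ε co) (((Fintype.card F : ℝ) ^ r / Fintype.card F) ^ a) ?_ ?_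
  · simpa using this
  · intro u hu
    have h1 : Submodule.span F (Set.range u) < ⊤ := lt_top_iff_ne_top.2 fun h => hu (sp_of_top u h)
    obtain ⟨f, hf0, hf⟩ := Submodule.exists_le_ker_of_lt_top _ h1
    refine ⟨fun j => f (Pi.single j 1), fun h => hf0 ?_, fun e => ?_⟩
    · rw [← lc_basis f, h]; ext; simp
    · rw [lc_basis]; exact hf (Submodule.subset_span ⟨e, rfl⟩)
  · intro c
    by_cases hc : c = 0
    · rw [cnt_false fun u hu => hu.1 hc]
      positivity
    · refine (cnt_mono fun u hu => hu.2).trans ?_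
      rw [card_all a (fun v : Fin r → F => Fintype.linearCombination F c v = 0)]
      have hs : Function.Surjective (Fintype.linearCombination F c).toAddMonoidHom := by
        obtain ⟨i, hi⟩ := Function.ne_iff.1 hc
        intro y
        refine ⟨Pi.single i (y / c i), ?_⟩
        have hi' : c i ≠ 0 := hi
        simp [hi']
      have h2 := cnt_fib _ hs 0
      have h3 : cnt (fun v : Fin r → F => Fintype.linearCombination F c v = 0) =
          (Fintype.card F : ℝ) ^ r / Fintype.card F := by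
        rw [eq_div_iff hq.ne']
        simpa using h2
      rw [h3]

lemma bad2 (a b r : ℕ) (u : Fin a → Fin r → F) (ε : Fin r → Fin a)
    (co : Fin r → (Fin r → F) →ₗ[F] F) (h : Sp u ε co) :
    cnt (fun v : Fin b → Fin r → F => ¬ ∀ i j k, i ≠ j → i ≠ k → j ≠ k → ∀ x y z, ∃ e,
      co i (v e) = x ∧ co j (v e) = y ∧ co k (v e) = z) ≤
      (r : ℝ) ^ 3 * (Fintype.card F : ℝ) ^ 3 *
        ((Fintype.card F : ℝ) ^ r * (1 - 1 / (Fintype.card F : ℝ) ^ 3)) ^ b := by
  have hq : (1 : ℝ) ≤ Fintype.card F := by exact_mod_cast Fintype.card_pos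
  have hq3 : (0 : ℝ) ≤ 1 - 1 / (Fintype.card F : ℝ) ^ 3 := by
    rw [sub_nonneg, div_le_one (by positivity)]; exact one_le_pow₀ hq
  have := union_le (X := Fin b → Fin r → F) (I := (Fin r × Fin r × Fin r) × (F × F × F))
    (fun c v => (c.1.1 ≠ c.1.2.1 ∧ c.1.1 ≠ c.1.2.2 ∧ c.1.2.1 ≠ c.1.2.2) ∧
      ∀ e, ¬ (co c.1.1 (v e) = c.2.1 ∧ co c.1.2.1 (v e) = c.2.2.1 ∧ co c.1.2.2 (v e) = c.2.2.2))
    (fun v => ¬ ∀ i j k, i ≠ j → i ≠ k → j ≠ k → ∀ x y z, ∃ e,
      co i (v e) = x ∧ co j (v e) = y ∧ co k (v e) = z)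
    (((Fintype.card F : ℝ) ^ r * (1 - 1 / (Fintype.card F : ℝ) ^ 3)) ^ b) ?_ ?_
  · refine this.trans (le_of_eq ?_)
    simp only [Fintype.card_prod, Fintype.card_fin]
    push_cast; ring
  · intro v hv
    simp only [not_forall, not_exists] at hv
    obtain ⟨i, j, k, h1, h2, h3, x, y, z, h4⟩ := hv
    exact ⟨((i, j, k), (x, y, z)), ⟨h1, h2, h3⟩, h4⟩
  · rintro ⟨⟨i, j, k⟩, x, y, z⟩
    by_cases hc : i ≠ j ∧ i ≠ k ∧ j ≠ k
    swap
    · rw [cnt_false fun u hu => hc hu.1]
      positivity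
    · obtain ⟨hij, hik, hjk⟩ := hc
      refine (cnt_mono fun u hu => hu.2).trans ?_
      rw [card_all b (fun v : Fin r → F => ¬ (co i v = x ∧ co j v = y ∧ co k v = z))]
      let f : (Fin r → F) →+ F × F × F :=
        (co i).toAddMonoidHom.prod ((co j).toAddMonoidHom.prod (co k).toAddMonoidHom)
      have hs : Function.Surjective f := by
        rintro ⟨x, y, z⟩
        refine ⟨x • u (ε i) + y • u (ε j) + z • u (ε k), ?_⟩
        simp [f, h.1, hij, hik, hjk, Ne.symm hij, Ne.symm hik, Ne.symm hjk]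
      have h2 := cnt_fib _ hs (x, y, z)
      have h4 := cnt_add_not (fun w => f w = (x, y, z))
      have h5 : cnt (fun v : Fin r → F => ¬ (co i v = x ∧ co j v = y ∧ co k v = z)) =
          cnt (fun v : Fin r → F => ¬ f v = (x, y, z)) := cnt_congr fun v => by simp [f]
      have h3 : cnt (fun v : Fin r → F => ¬ (co i v = x ∧ co j v = y ∧ co k v = z)) =
          (Fintype.card F : ℝ) ^ r * (1 - 1 / (Fintype.card F : ℝ) ^ 3) := by
        simp only [Fintype.card_fun, Fintype.card_fin, Fintype.card_prod] at h2 h4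
        push_cast at h2 h4
        rw [h5]
        field_simp
        linear_combination (Fintype.card F : ℝ) ^ 3 * h4 - h2
      rw [h3]

lemma notGood (a b r : ℕ) :
    cnt (fun φ : Fin (a + b) → Fin r → F => ¬ Good φ) ≤ ((Fintype.card F : ℝ) ^ r) ^ (a + b) *
      ((Fintype.card F : ℝ) ^ r / (Fintype.card F : ℝ) ^ a +
        (r : ℝ) ^ 3 * (Fintype.card F : ℝ) ^ 3 * (1 - 1 / (Fintype.card F : ℝ) ^ 3) ^ b) := by
  have hq : (1 : ℝ) ≤ Fintype.card F := by exact_mod_cast Fintype.card_pos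
  have hq3 : (0 : ℝ) ≤ 1 - 1 / (Fintype.card F : ℝ) ^ 3 := by
    rw [sub_nonneg, div_le_one (by positivity)]; exact one_le_pow₀ hq
  let P : (Fin a → Fin r → F) → (Fin b → Fin r → F) → Prop := fun u v =>
    ∀ ε co, Sp u ε co → ¬ ∀ i j k, i ≠ j → i ≠ k → j ≠ k → ∀ x y z, ∃ e,
      co i (v e) = x ∧ co j (v e) = y ∧ co k (v e) = z
  have h1 := cond a b (fun u : Fin a → Fin r → F => ¬ ∃ ε co, Sp u ε co) (fun _ _ => True)
    (((Fintype.card F : ℝ) ^ r) ^ b) (fun u _ => by rw [cnt_true]; simp)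
  have h2 := cond a b (fun u : Fin a → Fin r → F => ∃ ε co, Sp u ε co) P
    ((r : ℝ) ^ 3 * (Fintype.card F : ℝ) ^ 3 *
        ((Fintype.card F : ℝ) ^ r * (1 - 1 / (Fintype.card F : ℝ) ^ 3)) ^ b) (by
      rintro u ⟨ε, co, h⟩
      exact (cnt_mono fun v hv => hv ε co h).trans (bad2 a b r u ε co h))
  have h3 := bad1 (F := F) a r
  have h4 := cnt_le (fun u : Fin a → Fin r → F => ∃ ε co, Sp u ε co)
  refine (cnt_or ?_).trans (add_le_add h1 h2 |>.trans ?_)
  · intro φ hφ
    by_cases h : ∃ ε co, Sp (fun i => φ (Fin.castAdd b i)) ε co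
    · right
      refine ⟨h, fun ε co hs hc => hφ ⟨fun l => Fin.castAdd b (ε l), co, hs.1, fun e => ?_, ?_⟩⟩
      · have := hs.2 (φ e)
        rw [← Set.range_comp] at this ⊢
        exact this
      · intro i j k hij hik hjk x y z
        obtain ⟨e, he⟩ := hc i j k hij hik hjk x y z
        exact ⟨_, he⟩
    · left; exact ⟨h, trivial⟩
  · simp only [Fintype.card_fun, Fintype.card_fin] at h4
    push_cast at h4
    refine (add_le_add (mul_le_mul_of_nonneg_right h3 (by positivity))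
      (mul_le_mul_of_nonneg_right h4 (by positivity))).trans (le_of_eq ?_)
    rw [div_pow, mul_pow, pow_add]
    ring

end Pool.Agent.H366Z.Mat
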