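import Pool.Agent.H366Z.Mat.Count

/-! The semilinear monomial group and its eigenvector sets. -/

set_option autoImplicit false
set_option linter.unusedSectionVars false

open Finset
open scoped Classical

namespace Pool.Agent.H366Z.Mat

@[ext] structure Mon (F : Type) [Field F] (n : ℕ) where
  σ : Equiv.Perm (Fin n)
  d : Fin n → F
  hd : ∀ i, d i ≠ 0
  α : F ≃+* F

variable {F : Type} [Field F] [Fintype F] {n : ℕ}

instance : Group (Mon F n) where
  mul g h := ⟨h.σ * g.σ, fun i => g.d i * g.α (h.d (g.σ i)),
    fun i => mul_ne_zero (g.hd i) ((map_ne_zero g.α).2 (h.hd _)), h.α.trans g.α⟩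
  one := ⟨1, fun _ => 1, fun _ => one_ne_zero, RingEquiv.refl F⟩
  inv g := ⟨g.σ⁻¹, fun i => (g.α.symm (g.d (g.σ⁻¹ i)))⁻¹,
    fun _ => inv_ne_zero ((map_ne_zero g.α.symm).2 (g.hd _)), g.α.symm⟩
  mul_assoc a b c := by
    apply Mon.ext
    · exact (mul_assoc _ _ _).symm
    · funext i
      show a.d i * a.α (b.d (a.σ i)) * a.α (b.α (c.d (b.σ (a.σ i)))) =
        a.d i * a.α (b.d (a.σ i) * b.α (c.d (b.σ (a.σ i))))
      rw [map_mul, mul_assoc]
    · rfl
  one_mul a := by
    apply Mon.ext
    · exact mul_one _
    · funext i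
      show 1 * a.d i = a.d i
      rw [one_mul]
    · rfl
  mul_one a := by
    apply Mon.ext
    · exact one_mul _
    · funext i
      show a.d i * a.α 1 = a.d i
      rw [map_one, mul_one]
    · rfl
  inv_mul_cancel a := by
    apply Mon.ext
    · exact mul_inv_cancel _
    · funext i
      show (a.α.symm (a.d (a.σ⁻¹ i)))⁻¹ * a.α.symm (a.d (a.σ⁻¹ i)) = 1
      exact inv_mul_cancel₀ ((map_ne_zero a.α.symm).2 (a.hd _))
    · exact RingEquiv.self_trans_symm _

def act (g : Mon F n) (x : Fin n → F) : Fin n → F := fun i => g.d i * g.α (x (g.σ i))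

lemma act_mul (g h : Mon F n) (x : Fin n → F) : act (g * h) x = act g (act h x) := by
  funext i
  show g.d i * g.α (h.d (g.σ i)) * g.α (h.α (x (h.σ (g.σ i)))) =
    g.d i * g.α (h.d (g.σ i) * h.α (x (h.σ (g.σ i))))
  rw [map_mul, mul_assoc]

lemma act_one (x : Fin n → F) : act 1 x = x := by
  funext i
  show 1 * x i = x i
  rw [one_mul]

lemma act_add (g : Mon F n) (x y : Fin n → F) : act g (x + y) = act g x + act g y := by
  funext i; simp [act, mul_add]

lemma act_sub (g : Mon F n) (x y : Fin n → F) : act g (x - y) = act g x - act g y := by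
  funext i; simp [act, mul_sub]

lemma act_zero (g : Mon F n) : act g 0 = 0 := by
  funext i; simp [act]

lemma act_smul (g : Mon F n) (c : F) (x : Fin n → F) : act g (c • x) = g.α c • act g x := by
  funext i; simp [act]; ring

instance : MulAction (Mon F n) (Submodule F (Fin n → F)) where
  smul g K :=
    { carrier := {x | act g⁻¹ x ∈ K}
      add_mem' := fun {a b} ha hb => by
        simp only [Set.mem_ofPred_eq] at ha hb ⊢
        rw [act_add]; exact K.add_mem ha hb
      zero_mem' := by simp only [Set.mem_ofPred_eq]; rw [act_zero]; exact K.zero_mem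
      smul_mem' := fun c x hx => by
        simp only [Set.mem_ofPred_eq] at hx ⊢
        rw [act_smul]; exact K.smul_mem _ hx }
  one_smul K := by
    ext x
    show act 1⁻¹ x ∈ K ↔ x ∈ K
    rw [inv_one, act_one]
  mul_smul g h K := by
    ext x
    show act (g * h)⁻¹ x ∈ K ↔ act h⁻¹ (act g⁻¹ x) ∈ K
    rw [mul_inv_rev, act_mul]

lemma mem_smul_iff (g : Mon F n) (K : Submodule F (Fin n → F)) (x : Fin n → F) :
    x ∈ g • K ↔ act g⁻¹ x ∈ K := Iff.rfl

lemma act_mem_smul (g : Mon F n) (K : Submodule F (Fin n → F)) (x : Fin n → F) :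
    act g x ∈ g • K ↔ x ∈ K := by
  rw [mem_smul_iff, ← act_mul, inv_mul_cancel, act_one]

def monEquiv : Mon F n ≃ Equiv.Perm (Fin n) × (Fin n → {x : F // x ≠ 0}) × (F ≃+* F) where
  toFun g := (g.σ, fun i => ⟨g.d i, g.hd i⟩, g.α)
  invFun p := ⟨p.1, fun i => p.2.1 i, fun i => (p.2.1 i).2, p.2.2⟩
  left_inv _ := rfl
  right_inv _ := rfl

noncomputable instance : Fintype (F ≃+* F) :=
  Fintype.ofInjective (fun α : F ≃+* F => (α : F → F)) DFunLike.coe_injective

noncomputable instance : Fintype (Mon F n) := Fintype.ofEquiv _ monEquiv.symm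

lemma card_mon : Fintype.card (Mon F n) =
    n.factorial * (Fintype.card F - 1) ^ n * Fintype.card (F ≃+* F) := by
  rw [Fintype.card_congr monEquiv]
  simp [Fintype.card_perm, mul_assoc]

lemma card_aut {p k : ℕ} (hp : p.Prime) (hq : Fintype.card F = p ^ k) :
    Fintype.card (F ≃+* F) = k := by
  have : Fact p.Prime := ⟨hp⟩
  obtain ⟨p', hp'⟩ := CharP.exists F
  obtain ⟨k', hpp, hk'⟩ := FiniteField.card F p'
  have hpe : p' = p := by
    have h1 : p' ∣ p ^ k := by
      rw [← hq, hk']; exact dvd_pow_self _ k'.ne_zero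
    exact (Nat.prime_dvd_prime_iff_eq hpp hp).1 (hpp.dvd_of_dvd_pow h1)
  subst hpe
  let _ : Algebra (ZMod p') F := ZMod.algebra F p'
  have e : (F ≃+* F) ≃ (F ≃ₐ[ZMod p'] F) :=
    { toFun := fun α => AlgEquiv.ofRingEquiv (f := α) fun x => by
        obtain ⟨m, rfl⟩ := ZMod.natCast_zmod_surjective x
        simp
      invFun := fun α => α.toRingEquiv
      left_inv := fun _ => rfl
      right_inv := fun _ => rfl }
  rw [← Nat.card_eq_fintype_card, Nat.card_congr e, IsGalois.card_aut_eq_finrank]
  have h2 := Module.card_eq_pow_finrank (K := ZMod p') (V := F)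
  rw [ZMod.card, hq] at h2
  exact (Nat.pow_right_injective hp.two_le h2).symm

/-- the scalar elements -/
def scal (c : {x : F // x ≠ 0}) : Mon F n := ⟨1, fun _ => c, fun _ => c.2, RingEquiv.refl F⟩

lemma scal_smul (c : {x : F // x ≠ 0}) (K : Submodule F (Fin n → F)) :
    (scal c : Mon F n) • K = K := by
  ext x
  rw [mem_smul_iff]
  have : act (scal c : Mon F n)⁻¹ x = (c : F)⁻¹ • x := rfl
  rw [this]
  exact K.smul_mem_iff (inv_ne_zero c.2)

noncomputable def Sg (g : Mon F n) (l : F) : Finset (Fin n) :=
  {i | g.σ i ≠ i ∨ g.d i ≠ l ∨ g.α ≠ RingEquiv.refl F}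

noncomputable def Ng (g : Mon F n) (l : F) : Finset (Fin n → F) := {x | act g x = l • x}

lemma N_bound_aux (g : Mon F n) (l : F) (w : ℕ) (hw : w ≤ Fintype.card F)
    (hA : ∀ i, g.σ i = i → (g.d i ≠ l ∨ g.α ≠ RingEquiv.refl F) →
      #{y : F | g.d i * g.α y = l * y} * w ≤ Fintype.card F) :
    ∃ e, #(Sg g l) ≤ 2 * e ∧ #(Ng g l) * w ^ e ≤ Fintype.card F ^ n := by
  by_cases hl : l = 0
  · refine ⟨n, ?_, ?_⟩
    · have := card_le_univ (Sg g l)
      rw [Fintype.card_fin] at this; omega
    · have : #(Ng g l) ≤ 1 := by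
        apply card_le_one.2
        have key : ∀ x ∈ Ng g l, x = 0 := by
          intro x hx
          have hx' : act g x = l • x := by simpa [Ng] using hx
          rw [hl, zero_smul] at hx'
          have := congrArg (act g⁻¹) hx'
          rwa [← act_mul, inv_mul_cancel, act_one, act_zero] at this
        intro a ha b hb
        rw [key a ha, key b hb]
      calc #(Ng g l) * w ^ n ≤ 1 * Fintype.card F ^ n := by gcongr
        _ = _ := one_mul _
  set D1 : Finset (Fin n) := {i | g.σ i < i ∨ g.σ⁻¹ i < i} with hD1
  set D2 : Finset (Fin n) := {i | g.σ i = i ∧ (g.d i ≠ l ∨ g.α ≠ RingEquiv.refl F)} with hD2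
  set M : Finset (Fin n) := {i | g.σ i ≠ i} with hM
  have hdisj : Disjoint D1 D2 := by
    rw [disjoint_left]
    intro i h1 h2
    simp only [hD1, hD2, mem_filter, mem_univ, true_and] at h1 h2
    have h3 : g.σ⁻¹ i = i := by
      rw [Equiv.Perm.inv_eq_iff_eq]; exact h2.1.symm
    rw [h2.1, h3] at h1
    simp at h1
  have hM1 : #M ≤ 2 * #D1 := by
    have h1 : #(M \ D1) ≤ #D1 := by
      apply card_le_card_of_injOn g.σ _ g.σ.injective.injOn
      intro i hi
      simp only [hM, hD1, coe_sdiff, coe_filter, mem_univ, true_and, Set.mem_sdiff,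
        Set.mem_ofPred_eq, not_or, not_lt] at hi ⊢
      right
      have e : g.σ⁻¹ (g.σ i) = i := g.σ.symm_apply_apply i
      rw [e]
      exact lt_of_le_of_ne hi.2.1 (Ne.symm hi.1)
    have h2 := le_card_sdiff D1 M
    omega
  refine ⟨#(D1 ∪ D2), ?_, ?_⟩
  · have : Sg g l ⊆ M ∪ D2 := by
      intro i hi
      simp only [Sg, hM, hD2, mem_filter, mem_univ, true_and, mem_union] at hi ⊢
      by_cases h : g.σ i = i
      · right; exact ⟨h, hi.resolve_left (not_not.2 h)⟩
      · left; exact h
    have h1 := (card_le_card this).trans (card_union_le _ _)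
    rw [card_union_of_disjoint hdisj]
    omega
  · set B : Fin n → Finset F := fun i => if i ∈ D1 then {0} else if i ∈ D2 then
      univ.filter (fun y : F => g.d i * g.α y = l * y) else univ with hB
    have h1 : #(Ng g l) ≤ #(Fintype.piFinset B) := by
      apply card_le_card_of_injOn (fun x i => if i ∈ D1 then 0 else x i)
      · intro x hx
        have hx' : act g x = l • x := by simpa [Ng] using hx
        simp only [mem_coe, Fintype.mem_piFinset, hB]
        intro i
        split_ifs with h1 h2
        · simp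
        · have h3 : g.σ i = i := by
            simp only [hD2, mem_filter, mem_univ, true_and] at h2; exact h2.1
          have := congrFun hx' i
          simp only [act, h3, Pi.smul_apply, smul_eq_mul] at this
          simpa using this
        · simp
      · intro x hx y hy hxy
        have hx' : act g x = l • x := by simpa [Ng] using hx
        have hy' : act g y = l • y := by simpa [Ng] using hy
        funext i
        induction i using WellFoundedLT.induction with
        | ind i ih =>
          by_cases hi : i ∈ D1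
          · simp only [hD1, mem_filter, mem_univ, true_and] at hi
            rcases hi with hi | hi
            · have e1 := congrFun hx' i
              have e2 := congrFun hy' i
              simp only [act, Pi.smul_apply, smul_eq_mul] at e1 e2
              rw [ih _ hi, e2] at e1
              exact (mul_left_cancel₀ hl e1).symm
            · have e1 := congrFun hx' (g.σ⁻¹ i)
              have e2 := congrFun hy' (g.σ⁻¹ i)
              have e : g.σ (g.σ⁻¹ i) = i := g.σ.apply_symm_apply i
              simp only [act, Pi.smul_apply, smul_eq_mul, e] at e1 e2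
              rw [ih _ hi, ← e2] at e1
              exact g.α.injective (mul_left_cancel₀ (g.hd _) e1)
          · have := congrFun hxy i
            simpa [hi] using this
    have h2 : w ^ #(D1 ∪ D2) = ∏ i : Fin n, if i ∈ D1 ∪ D2 then w else 1 := by
      rw [prod_ite_mem, univ_inter, prod_const]
    calc #(Ng g l) * w ^ #(D1 ∪ D2) ≤ #(Fintype.piFinset B) * w ^ #(D1 ∪ D2) := by gcongr
      _ = ∏ i : Fin n, (#(B i) * if i ∈ D1 ∪ D2 then w else 1) := by
          rw [Fintype.card_piFinset, h2, prod_mul_distrib]
      _ ≤ ∏ _i : Fin n, Fintype.card F := by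
          apply prod_le_prod'
          intro i _
          simp only [hB, mem_union]
          by_cases h1 : i ∈ D1
          · simp [h1, hw]
          · by_cases h2 : i ∈ D2
            · simp only [h1, h2, if_false, if_true, or_true]
              simp only [hD2, mem_filter, mem_univ, true_and] at h2
              exact hA i h2.1 h2.2
            · simp [h1, h2]
      _ = _ := by simp

lemma N_bound_lin (g : Mon F n) (l : F) (hα : g.α = RingEquiv.refl F) :
    ∃ e, #(Sg g l) ≤ 2 * e ∧ #(Ng g l) * Fintype.card F ^ e ≤ Fintype.card F ^ n := by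
  apply N_bound_aux g l _ le_rfl
  intro i _ h
  have hd : g.d i ≠ l := h.resolve_right (not_not.2 hα)
  have : #{y : F | g.d i * g.α y = l * y} ≤ 1 := by
    apply card_le_one.2
    have key : ∀ y ∈ ({y : F | g.d i * g.α y = l * y} : Finset F), y = 0 := by
      intro y hy
      simp only [mem_filter, mem_univ, true_and, hα, RingEquiv.refl_apply] at hy
      by_contra h0
      exact hd (mul_right_cancel₀ h0 hy)
    intro a ha b hb
    rw [key a ha, key b hb]
  calc _ ≤ 1 * Fintype.card F := by gcongr
    _ = _ := one_mul _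

lemma N_bound_two (g : Mon F n) (l : F) :
    ∃ e, #(Sg g l) ≤ 2 * e ∧ #(Ng g l) * 2 ^ e ≤ Fintype.card F ^ n := by
  apply N_bound_aux g l _ Fintype.one_lt_card
  intro i _ h
  let A : AddSubgroup F :=
    { carrier := {y | g.d i * g.α y = l * y}
      add_mem' := fun {a b} ha hb => by
        simp only [Set.mem_ofPred_eq, map_add, mul_add] at ha hb ⊢
        rw [ha, hb]
      zero_mem' := by simp
      neg_mem' := fun {a} ha => by
        simp only [Set.mem_ofPred_eq, map_neg, mul_neg] at ha ⊢
        rw [ha] }
  have hA : A ≠ ⊤ := by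
    intro hT
    have h1 : ∀ y, g.d i * g.α y = l * y := fun y => (show y ∈ A from hT ▸ AddSubgroup.mem_top y)
    have h2 : g.d i = l := by simpa using h1 1
    rcases h with h | h
    · exact h h2
    · apply h
      ext y
      have := h1 y
      rw [← h2] at this
      exact mul_left_cancel₀ (g.hd i) this
  have h1 := AddSubgroup.one_lt_index_of_ne_top hA
  have h2 := A.card_mul_index
  have h3 : Nat.card A = #{y : F | g.d i * g.α y = l * y} := by
    rw [Nat.card_eq_fintype_card, Fintype.card_subtype]
    congr 1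
  rw [← h3, ← Nat.card_eq_fintype_card (α := F), ← h2]
  exact Nat.mul_le_mul_left _ h1

end Pool.Agent.H366Z.Mat
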