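import Pool.Agent.H366Z.Mat.Main

/-! The limit, and the passage from subspaces to matroids. -/

set_option autoImplicit false
set_option linter.unusedSectionVars false

open Finset Filter Topology
open scoped Classical

namespace Pool.Agent.H366Z.Mat

variable {F : Type} [Field F] [Fintype F]

lemma w_lim (c : ℕ) (hc : 0 < c) (ρ : ℝ) (h0 : 0 ≤ ρ) (h1 : ρ < 1) :
    Tendsto (fun n : ℕ => (n : ℝ) ^ 4 * ρ ^ (n / c)) atTop (𝓝 0) := by
  have t1 := (tendsto_pow_const_mul_const_pow_of_lt_one 4 h0 h1).comp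
    (Nat.tendsto_div_const_atTop hc.ne')
  have t2 := t1.const_mul ((2 * c : ℝ) ^ 4)
  rw [mul_zero] at t2
  refine squeeze_zero' (Eventually.of_forall fun n => by positivity) ?_ t2
  filter_upwards [eventually_ge_atTop c] with n hn
  simp only [Function.comp_apply]
  rw [← mul_assoc, ← mul_pow]
  apply mul_le_mul_of_nonneg_right _ (by positivity)
  apply pow_le_pow_left₀ (by positivity)
  have a1 : 1 ≤ n / c := (Nat.one_le_div_iff hc).2 hn
  have a2 : n < c * (n / c + 1) := Nat.lt_mul_div_succ n hc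
  have a3 : n ≤ 2 * c * (n / c) := by nlinarith
  exact_mod_cast a3

theorem main_lim (hq : 4 ≤ Fintype.card F) (C : ℕ → Type)
    (cl : ∀ n, Submodule F (Fin n → F) → C n) (h1 : ∀ n, Function.Surjective (cl n))
    (h2 : ∀ n (g : Mon F n) K, cl n (g • K) = cl n K)
    (h3 : ∀ n K K', GoodK K → cl n K = cl n K' → ∃ g : Mon F n, K' = g • K) :
    Tendsto (fun n : ℕ => (Nat.card (C n) : ℝ) / (Fintype.card (Submodule F (Fin n → F)) /
      (n.factorial * Fintype.card (F ≃+* F) * ((Fintype.card F : ℝ) - 1) ^ (n - 1))))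
      atTop (𝓝 1) := by
  have hQ : (4 : ℝ) ≤ Fintype.card F := by exact_mod_cast hq
  have h64 : (64 : ℝ) ≤ (Fintype.card F : ℝ) ^ 3 :=
    le_trans (by norm_num) (pow_le_pow_left₀ (by norm_num) hQ 3)
  have hρ : 1 / (Fintype.card F : ℝ) ^ 3 ≤ 1 / 64 := one_div_le_one_div_of_le (by norm_num) h64
  have hρ' : 0 < 1 / (Fintype.card F : ℝ) ^ 3 := by positivity
  have t := w_lim (32 * Fintype.card F * 32) (by omega) (1 - 1 / (Fintype.card F : ℝ) ^ 3)
    (by linarith) (by linarith)
  have t1 := t.const_mul (Fintype.card F : ℝ)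
  have t2 := t.const_mul
    (8 * (Fintype.card F + 1) * (Fintype.card (F ≃+* F) + Fintype.card F) * Fintype.card F +
        4 * (1 + (Fintype.card F : ℝ) ^ 3))
  rw [mul_zero] at t1 t2
  rw [tendsto_iff_norm_sub_tendsto_zero]
  refine squeeze_zero' (Eventually.of_forall fun n => norm_nonneg _) ?_ t2
  filter_upwards [t1.eventually (ge_mem_nhds zero_lt_one),
    eventually_ge_atTop (32 * Fintype.card F * 32)] with n hn1 hn2
  rw [Real.norm_eq_abs]
  refine est hq (N := n / 32) (T := n / 32 / Fintype.card F) (M := n / (32 * Fintype.card F * 32))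
    (by omega) (by omega) (by omega) (Nat.mul_div_le _ _) ?_
    ((Nat.one_le_div_iff (by omega)).2 hn2) (cl n) (h1 n) (h2 n) (h3 n) _ rfl hn1
  rw [← Nat.div_div_eq_div_mul, ← Nat.div_div_eq_div_mul]
  exact Nat.mul_div_le _ _

variable {n : ℕ}

def KInd (K : Submodule F (Fin n → F)) (I : Set (Fin n)) : Prop :=
  ∀ x ∈ K, (∀ e, e ∉ I → x e = 0) → x = 0

lemma ind_iff {W : Type} [AddCommGroup W] [Module F W] (φ : Fin n → W) (I : Set (Fin n)) :
    LinearIndepOn F φ I ↔ KInd (kr (F := F) φ) I := by
  rw [linearIndepOn_iff]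
  constructor
  · intro h x hx hI
    have := h (Finsupp.equivFunOnFinite.symm x) (by rw [Finsupp.mem_supported']; simpa using hI)
      (by rw [Finsupp.linearCombination_apply, Finsupp.sum_fintype _ _ (by simp)]
          simpa using (mem_kr φ x).1 hx)
    funext e
    simpa using DFunLike.congr_fun this e
  · intro h l hl h0
    rw [Finsupp.linearCombination_apply, Finsupp.sum_fintype _ _ (by simp)] at h0
    have := h l ((mem_kr φ l).2 h0) ((Finsupp.mem_supported' _ _).1 hl)
    ext e
    exact congrFun this e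

lemma exists_phi (K : Submodule F (Fin n → F)) :
    ∃ (r : ℕ) (φ : Fin n → Fin r → F), kr (F := F) φ = K := by
  have h1 : Module.finrank F K ≤ n := by simpa using K.finrank_le
  obtain ⟨π, -, hπ⟩ := exists_kr K (r := n - Module.finrank F K) (by omega)
  exact ⟨_, fun j => π (Pi.single j 1), by rw [kr, lc_basis, hπ]⟩

lemma aug {W : Type} [AddCommGroup W] [Module F W] (φ : Fin n → W) (I J : Set (Fin n))
    (hI : LinearIndepOn F φ I) (hJ : LinearIndepOn F φ J) (h : I.ncard < J.ncard) :
    ∃ e ∈ J, e ∉ I ∧ LinearIndepOn F φ (insert e I) := by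
  by_contra hc
  push Not at hc
  have h1 : Submodule.span F (φ '' J) ≤ Submodule.span F (φ '' I) := by
    rw [Submodule.span_le]
    rintro _ ⟨e, he, rfl⟩
    by_cases heI : e ∈ I
    · exact Submodule.subset_span ⟨e, heI, rfl⟩
    · by_contra hn
      exact hc e he heI ((linearIndepOn_insert heI).2 ⟨hI, hn⟩)
  have key : ∀ S : Set (Fin n), LinearIndepOn F φ S →
      Module.finrank F (Submodule.span F (φ '' S)) = S.ncard := by
    intro S hS
    rw [Set.image_eq_range, finrank_span_eq_card hS, ← Nat.card_eq_fintype_card]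
    rfl
  have : Module.Finite F (Submodule.span F (φ '' I)) :=
    Module.Finite.span_of_finite F (Set.toFinite _)
  have h2 := Submodule.finrank_mono h1
  rw [key I hI, key J hJ] at h2
  omega

noncomputable def kmat (K : Submodule F (Fin n → F)) : Matroid (Fin n) :=
  (IndepMatroid.ofFinite (E := Set.univ) Set.finite_univ (KInd K)
    (fun x _ h => funext fun e => h e (Set.notMem_empty e))
    (fun I J hJ hIJ x hx h => hJ x hx fun e he => h e fun h' => he (hIJ h'))
    (by
      obtain ⟨r, φ, rfl⟩ := exists_phi K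
      simp only [← ind_iff]
      exact aug φ)
    (fun I _ => Set.subset_univ I)).matroid

lemma kmat_E (K : Submodule F (Fin n → F)) : (kmat K).E = Set.univ := rfl

lemma kmat_indep (K : Submodule F (Fin n → F)) (I : Set (Fin n)) :
    (kmat K).Indep I ↔ KInd K I := by
  simp [kmat]

lemma KInd_smul (g : Mon F n) (K : Submodule F (Fin n → F)) (I : Set (Fin n)) :
    KInd (g • K) I ↔ KInd K (g.σ '' I) := by
  constructor
  · intro h x hx hI
    have h1 := h (act g x) ((act_mem_smul g K x).2 hx) fun e he => by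
      have : x (g.σ e) = 0 := hI _ (by simpa using he)
      simp [act, this]
    have := congrArg (act g⁻¹) h1
    rwa [← act_mul, inv_mul_cancel, act_one, act_zero] at this
  · intro h x hx hI
    have h1 := h (act g⁻¹ x) hx fun e he => by
      have : x (g⁻¹.σ e) = 0 := hI _ fun h' => he ⟨_, h', g.σ.apply_symm_apply e⟩
      simp [act, this]
    have := congrArg (act g) h1
    rwa [← act_mul, mul_inv_cancel, act_one, act_zero] at this

lemma uniqK (K K' : Submodule F (Fin n → F)) (hK : GoodK K) (σ : Fin n ≃ Fin n)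
    (h : ∀ I, KInd K I ↔ KInd K' (σ '' I)) : ∃ g : Mon F n, K' = g • K := by
  obtain ⟨r, hr, φ, hφ, rfl⟩ := hK
  let g0 : Mon F n := ⟨σ, fun _ => 1, fun _ => one_ne_zero, RingEquiv.refl F⟩
  obtain ⟨r', ψ, hψ⟩ := exists_phi (g0 • K')
  obtain ⟨g, hg⟩ := uniq hr φ hφ ψ fun I => by
    rw [ind_iff, ind_iff, hψ, KInd_smul]; exact h I
  refine ⟨g0⁻¹ * g, ?_⟩
  rw [mul_smul, ← hg, hψ, inv_smul_smul]

lemma sum_gauss (n : ℕ) : ∑ j ∈ range (n + 1),
    Nat.card {W : Submodule F (Fin n → F) // Module.finrank F W = j} =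
      Fintype.card (Submodule F (Fin n → F)) := by
  rw [← card_univ, card_eq_sum_card_fiberwise (f := fun W : Submodule F (Fin n → F) =>
    Module.finrank F W) (t := range (n + 1))]
  · refine sum_congr rfl fun j _ => ?_
    rw [Nat.card_eq_fintype_card, Fintype.card_subtype]
  · intro W _
    have h1 : Module.finrank F W ≤ n := by simpa using W.finrank_le
    simp only [coe_range, Set.mem_Iio]; omega

end Pool.Agent.H366Z.Mat
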