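import Pool.Agent.H366Z.Mat.Burn

/-! The abstract counting theorem. -/

set_option autoImplicit false
set_option linter.unusedSectionVars false

open Finset
open scoped Classical

namespace Pool.Agent.H366Z.Mat

variable {F : Type} [Field F] [Fintype F] {n : ℕ}

lemma card_ne_zero : Fintype.card {x : F // x ≠ 0} = Fintype.card F - 1 := by simp

lemma orb_le (hq : 4 ≤ Fintype.card F) {N T M : ℕ} (hN : 32 * N ≤ n)
    (hN' : n ≤ 64 * N) (hqN : Fintype.card F ≤ N) (hT : Fintype.card F * T ≤ N)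
    (hM : 32 * M ≤ T) (hM1 : 1 ≤ M) :
    (Nat.card (MulAction.orbitRel.Quotient (Mon F n) (Submodule F (Fin n → F))) : ℝ) *
      Fintype.card (Mon F n) ≤
      ((Fintype.card F : ℝ) - 1) * Fintype.card (Submodule F (Fin n → F)) +
      (n + 1) * (2 * (Fintype.card (Submodule F (Fin n → F)) : ℝ) * ((Fintype.card F + 1) *
        (2 * Fintype.card (F ≃+* F) * (n * Fintype.card F * (1 / 2) ^ M) ^ n +
          Fintype.card F * ((1 + n * Fintype.card F * (1 / 2) ^ M) ^ n - 1)))) := by
  let _ := Fintype.ofFinite (MulAction.orbitRel.Quotient (Mon F n) (Submodule F (Fin n → F)))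
  have hB := MulAction.sum_card_fixedBy_eq_card_orbits_mul_card_group (Mon F n)
    (Submodule F (Fin n → F))
  have h1 : (Nat.card (MulAction.orbitRel.Quotient (Mon F n) (Submodule F (Fin n → F))) : ℝ) *
      Fintype.card (Mon F n) = ∑ g : Mon F n, cnt (fun K : Submodule F (Fin n → F) => g • K = K) := by
    rw [Nat.card_eq_fintype_card, ← Nat.cast_mul, ← hB, Nat.cast_sum]
    refine sum_congr rfl fun g _ => ?_
    rw [cnt, ← Nat.card_eq_fintype_card]
    rfl
  rw [h1]
  set X0 : ℝ := (Fintype.card (Submodule F (Fin n → F)) : ℝ) with hX0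
  have hX : 0 ≤ X0 := Nat.cast_nonneg _
  set y : ℝ := (1 / 2) ^ M with hy
  have hy0 : 0 ≤ y := by positivity
  let B : Mon F n → ℝ := fun g => ∑ l : F,
    if g.α = RingEquiv.refl F ∧ (Sg g l).Nonempty then y ^ #(Sg g l) else 0
  have hB0 : ∀ g, 0 ≤ B g := fun g => sum_nonneg fun l _ => by split_ifs <;> positivity
  have h2 : ∀ g ∈ (univ : Finset (Mon F n)), cnt (fun K : Submodule F (Fin n → F) => g • K = K) ≤
      (if ∃ c, g = scal c then X0 else 0) +
        (n + 1) * (2 * X0 * ((Fintype.card F + 1) * (2 * y ^ n + B g))) := by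
    intro g _
    have := hB0 g
    split_ifs with h
    · exact (cnt_le _).trans (le_add_of_nonneg_right (by positivity))
    · rw [zero_add]
      exact fix_g hq g hN hN' hqN hT hM hM1 fun c hc => h ⟨c, hc⟩
  refine (sum_le_sum h2).trans ?_
  rw [sum_add_distrib]
  apply add_le_add
  · rw [← sum_filter, sum_const, nsmul_eq_mul]
    apply mul_le_mul_of_nonneg_right _ hX
    have h3 : (univ.filter fun g : Mon F n => ∃ c, g = scal c) ⊆ univ.image scal := by
      intro g hg
      obtain ⟨c, hc⟩ := (mem_filter.1 hg).2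
      exact mem_image.2 ⟨c, mem_univ _, hc.symm⟩
    have h4 := (card_le_card h3).trans card_image_le
    rw [card_univ, card_ne_zero] at h4
    have h5 : ((Fintype.card F - 1 : ℕ) : ℝ) = Fintype.card F - 1 := by
      rw [Nat.cast_sub (by omega)]; simp
    rw [← h5]; exact_mod_cast h4
  · rw [← mul_sum, ← mul_sum, ← mul_sum, sum_add_distrib]
    apply mul_le_mul_of_nonneg_left _ (by positivity)
    apply mul_le_mul_of_nonneg_left _ (by positivity)
    apply mul_le_mul_of_nonneg_left _ (by positivity)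
    apply add_le_add
    · rw [sum_const, card_univ, nsmul_eq_mul]
      have h3 : Fintype.card (Mon F n) ≤ (n * Fintype.card F) ^ n * Fintype.card (F ≃+* F) := by
        rw [card_mon, mul_pow]
        exact Nat.mul_le_mul_right _ (Nat.mul_le_mul (Nat.factorial_le_pow n)
          (Nat.pow_le_pow_left (Nat.sub_le _ _) _))
      have h4 : (Fintype.card (Mon F n) : ℝ) ≤
          (n * Fintype.card F) ^ n * Fintype.card (F ≃+* F) := by exact_mod_cast h3
      calc _ ≤ ((n : ℝ) * Fintype.card F) ^ n * Fintype.card (F ≃+* F) * (2 * y ^ n) :=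
            mul_le_mul_of_nonneg_right h4 (by positivity)
        _ = _ := by rw [mul_pow _ y]; ring
    · simp only [B]
      rw [sum_comm]
      refine (sum_le_sum fun l _ => sum_w l y hy0).trans ?_
      rw [sum_const, card_univ, nsmul_eq_mul]

def GoodK (K : Submodule F (Fin n → F)) : Prop :=
  ∃ r, 3 ≤ r ∧ ∃ φ : Fin n → Fin r → F, Good φ ∧ kr (F := F) φ = K

lemma notGood' (hq : 4 ≤ Fintype.card F) {r N : ℕ} (h : r + 2 * N ≤ n) :
    cnt (fun φ : Fin n → Fin r → F => ¬ Good φ) ≤ ((Fintype.card F : ℝ) ^ r) ^ n *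
      ((1 + (n : ℝ) ^ 3 * (Fintype.card F : ℝ) ^ 3) * (1 - 1 / (Fintype.card F : ℝ) ^ 3) ^ N) := by
  obtain ⟨b, rfl⟩ := Nat.exists_eq_add_of_le (show r + N ≤ n by omega)
  refine (notGood (r + N) b r).trans (mul_le_mul_of_nonneg_left ?_ (by positivity))
  have hQ : (4 : ℝ) ≤ Fintype.card F := by exact_mod_cast hq
  set Q : ℝ := (Fintype.card F : ℝ)
  have h1 : (64 : ℝ) ≤ Q ^ 3 := le_trans (by norm_num) (pow_le_pow_left₀ (by norm_num) hQ 3)
  have h2 : 1 / Q ^ 3 ≤ 1 / 64 := one_div_le_one_div_of_le (by norm_num) h1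
  have h3 : 1 / Q ≤ 1 / 4 := one_div_le_one_div_of_le (by norm_num) hQ
  have h4 : 0 < 1 / Q ^ 3 := by positivity
  rw [add_mul, one_mul]
  apply add_le_add
  · have : Q ^ r / Q ^ (r + N) = (1 / Q) ^ N := by rw [pow_add]; field_simp; simp [(show Q ≠ 0 by linarith)]
    rw [this]
    exact pow_le_pow_left₀ (by positivity) (by linarith) _
  · apply mul_le_mul
    · have : (r : ℝ) ≤ (r + N + b : ℕ) := by exact_mod_cast (by omega)
      gcongr
    · exact pow_le_pow_of_le_one (by linarith) (by linarith) (by omega)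
    · exact pow_nonneg (by linarith) _
    · positivity

lemma bad_le (hq : 4 ≤ Fintype.card F) {N M : ℕ} (hN : 32 * N ≤ n) (hM : M ≤ N) (hM1 : 1 ≤ M) :
    cnt (fun K : Submodule F (Fin n → F) => ¬ GoodK K) ≤
      (n + 1) * (2 * (Fintype.card (Submodule F (Fin n → F)) : ℝ) *
      ((1 + (n : ℝ) ^ 3 * (Fintype.card F : ℝ) ^ 3) * (1 - 1 / (Fintype.card F : ℝ) ^ 3) ^ M)) := by
  have hQ : (4 : ℝ) ≤ Fintype.card F := by exact_mod_cast hq
  have h1 : (64 : ℝ) ≤ (Fintype.card F : ℝ) ^ 3 :=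
    le_trans (by norm_num) (pow_le_pow_left₀ (by norm_num) hQ 3)
  have h2 : 1 / (Fintype.card F : ℝ) ^ 3 ≤ 1 / 64 := one_div_le_one_div_of_le (by norm_num) h1
  have h5 : (0 : ℝ) ≤ (1 - 1 / (Fintype.card F : ℝ) ^ 3) ^ M := pow_nonneg (by linarith) _
  apply cntK
  intro r hr
  by_cases hnc : r < 8 * N ∨ n - r < 8 * N
  · refine (noncentral (by omega) hr hN hM hM1 hnc _).trans ?_
    apply mul_le_mul_of_nonneg_left _ (by positivity)
    have a1 : ((1 / 2 : ℝ) ^ M) ^ n ≤ (1 / 2) ^ M :=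
      pow_le_of_le_one (by positivity) (pow_le_one₀ (by norm_num) (by norm_num)) (by omega)
    have a2 : (1 / 2 : ℝ) ^ M ≤ (1 - 1 / (Fintype.card F : ℝ) ^ 3) ^ M :=
      pow_le_pow_left₀ (by norm_num) (by linarith) _
    have a3 : (0 : ℝ) ≤ (n : ℝ) ^ 3 * (Fintype.card F : ℝ) ^ 3 := by positivity
    nlinarith
  · apply L2 (by omega) (fun K => ¬ GoodK K) _ (by positivity)
    refine (cnt_mono ?_).trans (notGood' hq (N := M) (by omega))
    intro φ hφ hG
    exact hφ.2 ⟨r, by omega, φ, hG, rfl⟩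

lemma orbit_le (hn : 1 ≤ n) (K0 : Submodule F (Fin n → F)) :
    cnt (fun K : Submodule F (Fin n → F) => ∃ g : Mon F n, K = g • K0) *
      ((Fintype.card F : ℝ) - 1) ≤ Fintype.card (Mon F n) := by
  have := cnt_dc (fun K : Submodule F (Fin n → F) => ∃ g : Mon F n, K = g • K0)
    (fun _ : Mon F n => True) (fun K g => K = g • K0) ((Fintype.card F : ℝ) - 1) 1 ?_ ?_
  · rwa [cnt_true, mul_one] at this
  · rintro K ⟨g, rfl⟩
    have h5 : ((Fintype.card F : ℝ) - 1) = cnt (fun _ : {x : F // x ≠ 0} => True) := by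
      rw [cnt_true, card_ne_zero, Nat.cast_sub Fintype.card_pos]; simp
    rw [h5]
    apply cnt_inj (fun c => g * scal c)
    · intro c _
      exact ⟨trivial, by rw [mul_smul, scal_smul]⟩
    · intro c c' _ _ e
      have := mul_left_cancel e
      exact Subtype.ext (congrFun (congrArg Mon.d this) ⟨0, hn⟩)
  · intro g _
    rw [← cnt_eq]
    norm_cast
    apply card_le_one.2
    intro a ha b hb
    rw [(mem_filter.1 ha).2.2, (mem_filter.1 hb).2.2]

lemma class_bounds (hn : 1 ≤ n) {C : Type} (cl : Submodule F (Fin n → F) → C)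
    (h1 : Function.Surjective cl) (h2 : ∀ (g : Mon F n) K, cl (g • K) = cl K)
    (h3 : ∀ K K', GoodK K → cl K = cl K' → ∃ g : Mon F n, K' = g • K) :
    Nat.card C ≤ Nat.card (MulAction.orbitRel.Quotient (Mon F n) (Submodule F (Fin n → F))) ∧
    cnt (GoodK (F := F) (n := n)) * ((Fintype.card F : ℝ) - 1) ≤
      Nat.card C * Fintype.card (Mon F n) := by
  constructor
  · let f : MulAction.orbitRel.Quotient (Mon F n) (Submodule F (Fin n → F)) → C :=
      Quotient.lift cl (by
        rintro a b ⟨g, rfl⟩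
        exact h2 g b)
    apply Nat.card_le_card_of_surjective f
    intro c
    obtain ⟨K, rfl⟩ := h1 c
    exact ⟨Quotient.mk _ K, rfl⟩
  · have : Finite C := Finite.of_surjective cl h1
    let _ := Fintype.ofFinite C
    have hq : (0 : ℝ) < (Fintype.card F : ℝ) - 1 := by
      have : (1 : ℝ) < Fintype.card F := by exact_mod_cast Fintype.one_lt_card
      linarith
    have := cnt_dc (GoodK (F := F) (n := n)) (fun _ : C => True) (fun K c => cl K = c) 1
      (Fintype.card (Mon F n) / ((Fintype.card F : ℝ) - 1)) ?_ ?_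
    · rw [cnt_true, mul_one, ← mul_div_assoc, le_div_iff₀ hq] at this
      rwa [Nat.card_eq_fintype_card]
    · intro K _
      exact one_le_cnt (cl K) ⟨trivial, rfl⟩
    · intro c _
      by_cases h : ∃ K0, GoodK K0 ∧ cl K0 = c
      · obtain ⟨K0, hK, rfl⟩ := h
        rw [le_div_iff₀ hq]
        refine le_trans (mul_le_mul_of_nonneg_right (cnt_mono ?_) hq.le) (orbit_le hn K0)
        intro K hK'
        exact h3 K0 K hK hK'.2.symm
      · rw [cnt_false fun K hK => h ⟨K, hK⟩]
        positivity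

lemma est (hq : 4 ≤ Fintype.card F) {N T M : ℕ} (hN : 32 * N ≤ n)
    (hN' : n ≤ 64 * N) (hqN : Fintype.card F ≤ N) (hT : Fintype.card F * T ≤ N)
    (hM : 32 * M ≤ T) (hM1 : 1 ≤ M) {C : Type} (cl : Submodule F (Fin n → F) → C)
    (h1 : Function.Surjective cl) (h2 : ∀ (g : Mon F n) K, cl (g • K) = cl K)
    (h3 : ∀ K K', GoodK K → cl K = cl K' → ∃ g : Mon F n, K' = g • K) (w : ℝ)
    (hw : w = (n : ℝ) ^ 4 * (1 - 1 / (Fintype.card F : ℝ) ^ 3) ^ M)
    (hw1 : Fintype.card F * w ≤ 1) :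
    |(Nat.card C : ℝ) / (Fintype.card (Submodule F (Fin n → F)) /
        (n.factorial * Fintype.card (F ≃+* F) * ((Fintype.card F : ℝ) - 1) ^ (n - 1))) - 1| ≤
      (8 * (Fintype.card F + 1) * (Fintype.card (F ≃+* F) + Fintype.card F) * Fintype.card F +
        4 * (1 + (Fintype.card F : ℝ) ^ 3)) * w := by
  have hTN : T ≤ N := le_trans (Nat.le_mul_of_pos_left _ (by omega)) hT
  have hn : 1 ≤ n := by omega
  obtain ⟨c1, c2⟩ := class_bounds hn cl h1 h2 h3
  have c3 := orb_le hq hN hN' hqN hT hM hM1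
  have c4 := bad_le (n := n) hq hN (M := M) (by omega) hM1
  have c5 := cnt_add_not (GoodK (F := F) (n := n))
  have c1' : (Nat.card C : ℝ) ≤
      Nat.card (MulAction.orbitRel.Quotient (Mon F n) (Submodule F (Fin n → F))) := by
    exact_mod_cast c1
  have c6 : (Fintype.card (Mon F n) : ℝ) =
      (n.factorial * Fintype.card (F ≃+* F) * ((Fintype.card F : ℝ) - 1) ^ (n - 1)) *
        ((Fintype.card F : ℝ) - 1) := by
    rw [card_mon]
    push_cast [Nat.cast_sub (Fintype.card_pos (α := F))]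
    conv_lhs => rw [show n = (n - 1) + 1 by omega, pow_succ, show n - 1 + 1 = n by omega]
    ring
  have hX : (0 : ℝ) < Fintype.card (Submodule F (Fin n → F)) := by
    exact_mod_cast Fintype.card_pos
  have hk : (0 : ℝ) < Fintype.card (F ≃+* F) := by
    have : Nonempty (F ≃+* F) := ⟨RingEquiv.refl F⟩
    exact_mod_cast Fintype.card_pos
  have hQ : (4 : ℝ) ≤ Fintype.card F := by exact_mod_cast hq
  have hn' : (1 : ℝ) ≤ n := by exact_mod_cast hn
  have hf : (0 : ℝ) < n.factorial := by exact_mod_cast n.factorial_pos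
  generalize (Nat.card (MulAction.orbitRel.Quotient (Mon F n) (Submodule F (Fin n → F))) : ℝ) = O
    at *
  generalize (Fintype.card (Submodule F (Fin n → F)) : ℝ) = X at *
  generalize (Fintype.card (Mon F n) : ℝ) = G at *
  generalize (Fintype.card (F ≃+* F) : ℝ) = k at *
  generalize (Fintype.card F : ℝ) = Q at *
  generalize (Nat.card C : ℝ) = a at *
  generalize cnt (GoodK (F := F) (n := n)) = A at *
  generalize cnt (fun K : Submodule F (Fin n → F) => ¬ GoodK K) = B at *
  have hg : 0 < n.factorial * k * (Q - 1) ^ (n - 1) := by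
    have : 0 < Q - 1 := by linarith
    positivity
  generalize n.factorial * k * (Q - 1) ^ (n - 1) = g at *
  have h64 : (64 : ℝ) ≤ Q ^ 3 := le_trans (by norm_num) (pow_le_pow_left₀ (by norm_num) hQ 3)
  have hρ : 1 / Q ^ 3 ≤ 1 / 64 := one_div_le_one_div_of_le (by norm_num) h64
  have hy : (1 / 2 : ℝ) ^ M ≤ (1 - 1 / Q ^ 3) ^ M := pow_le_pow_left₀ (by norm_num) (by linarith) _
  have hy0 : (0 : ℝ) ≤ (1 / 2) ^ M := by positivity
  generalize (1 / 2 : ℝ) ^ M = y at *
  generalize (1 - 1 / Q ^ 3) ^ M = ρ at *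
  have hρ0 : 0 ≤ ρ := hy0.trans hy
  have hw0 : 0 ≤ w := by rw [hw]; positivity
  have p1 : (n : ℝ) ^ 3 * y ≤ w := by
    rw [hw]; exact mul_le_mul (pow_le_pow_right₀ hn' (by norm_num)) hy hy0 (by positivity)
  have p2 : (n : ℝ) * ρ ≤ w := by
    rw [hw]; exact mul_le_mul_of_nonneg_right (le_self_pow₀ hn' (by norm_num)) hρ0
  set z := n * Q * y with hz
  have hz0 : 0 ≤ z := by rw [hz]; positivity
  have p3 : (n : ℝ) * (n * z) ≤ Q * w := by
    calc _ = Q * ((n : ℝ) ^ 3 * y) := by rw [hz]; ring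
      _ ≤ _ := mul_le_mul_of_nonneg_left p1 (by linarith)
  have p4 : z ≤ n * z := le_mul_of_one_le_left hz0 hn'
  have p5 : n * z ≤ n * (n * z) := le_mul_of_one_le_left (by positivity) hn'
  have p6 : z ^ n ≤ n * z := (pow_le_of_le_one hz0 (by linarith) (by omega)).trans p4
  have p7 : (1 + z) ^ n - 1 ≤ 2 * (n * z) := by
    have e1 : (1 + z) ^ n ≤ Real.exp (n * z) := by
      rw [Real.exp_nat_mul]
      exact pow_le_pow_left₀ (by linarith) (by linarith [Real.add_one_le_exp z]) _
    have e2 := Real.abs_exp_sub_one_le (x := n * z) (by rw [abs_of_nonneg (by positivity)]; linarith)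
    rw [abs_of_nonneg (show 0 ≤ n * z by positivity)] at e2
    linarith [le_abs_self (Real.exp (n * z) - 1)]
  have U : a * g ≤ X * (1 + 8 * (Q + 1) * (k + Q) * Q * w) := by
    have q1 : 2 * k * z ^ n + Q * ((1 + z) ^ n - 1) ≤ 2 * (k + Q) * (n * z) := by nlinarith
    have q2 : ((n : ℝ) + 1) * (2 * X * ((Q + 1) * (2 * k * z ^ n + Q * ((1 + z) ^ n - 1)))) ≤
        (2 * n) * (2 * X * ((Q + 1) * (2 * (k + Q) * (n * z)))) := by
      apply le_trans (mul_le_mul_of_nonneg_left (mul_le_mul_of_nonneg_left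
        (mul_le_mul_of_nonneg_left q1 (by linarith)) (by linarith)) (by linarith))
      apply mul_le_mul_of_nonneg_right (by linarith)
      have : 0 < Q := by linarith
      positivity
    have q3 : (2 * n) * (2 * X * ((Q + 1) * (2 * (k + Q) * (n * z)))) ≤
        X * (8 * (Q + 1) * (k + Q) * Q * w) := by
      calc _ = X * (8 * (Q + 1) * (k + Q)) * (n * (n * z)) := by ring
        _ ≤ X * (8 * (Q + 1) * (k + Q)) * (Q * w) := by
            apply mul_le_mul_of_nonneg_left p3
            have : 0 < Q := by linarith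
            positivity
        _ = _ := by ring
    have q4 : 0 ≤ X * (8 * (Q + 1) * (k + Q) * Q * w) := by
      have : 0 < Q := by linarith
      positivity
    have q5 : a * G ≤ O * G := by
      apply mul_le_mul_of_nonneg_right c1'
      rw [c6]; exact mul_nonneg hg.le (by linarith)
    apply le_of_mul_le_mul_right _ (show 0 < Q - 1 by linarith)
    rw [c6] at q5 c3
    nlinarith
  have L : X * (1 - 4 * (1 + Q ^ 3) * w) ≤ a * g := by
    have q1 : A ≤ a * g := by
      apply le_of_mul_le_mul_right _ (show 0 < Q - 1 by linarith)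
      rw [c6] at c2; linarith
    have q2 : ((n : ℝ) + 1) * (2 * X * ((1 + n ^ 3 * Q ^ 3) * ρ)) ≤
        (2 * n) * (2 * X * ((1 + n ^ 3 * Q ^ 3) * ρ)) := by
      apply mul_le_mul_of_nonneg_right (by linarith)
      have : 0 < Q := by linarith
      positivity
    have q3 : (2 * n) * (2 * X * ((1 + n ^ 3 * Q ^ 3) * ρ)) = 4 * X * (n * ρ + Q ^ 3 * w) := by
      rw [hw]; ring
    nlinarith
  have e : a / (X / g) - 1 = (a * g - X) / X := by field_simp
  have q4 : 0 ≤ X * (8 * (Q + 1) * (k + Q) * Q * w) := by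
    have : 0 < Q := by linarith
    positivity
  have q5 : 0 ≤ X * (4 * (1 + Q ^ 3) * w) := by positivity
  rw [e, abs_div, abs_of_pos hX, div_le_iff₀ hX, abs_le]
  constructor <;> nlinarith

end Pool.Agent.H366Z.Mat
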