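import Pool.Agent.H366Z.Mat.Group

/-! Unique representability of matroids with many projective-plane minors. -/

set_option autoImplicit false
set_option linter.unusedSectionVars false

open Finset
open scoped Classical

namespace Pool.Agent.H366Z.Mat

variable {F : Type} [Field F] [Fintype F]

def Col {ι : Type} (a1 a2 a3 : ι → F) (e f g : ι) : Prop :=
  ∃ s t, a1 e = s * a1 f + t * a1 g ∧ a2 e = s * a2 f + t * a2 g ∧ a3 e = s * a3 f + t * a3 g

lemma ft_norm {ι : Type} (a1 a2 a3 b1 b2 b3 : ι → F)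
    (H : ∀ e f g, Col a1 a2 a3 e f g ↔ Col b1 b2 b3 e f g)
    (hs : ∀ x y z, ∃ e, a1 e = x ∧ a2 e = y ∧ a3 e = z) (i j k o : ι)
    (ai : a1 i = 1 ∧ a2 i = 0 ∧ a3 i = 0) (aj : a1 j = 0 ∧ a2 j = 1 ∧ a3 j = 0)
    (ak : a1 k = 0 ∧ a2 k = 0 ∧ a3 k = 1) (ao : a1 o = 1 ∧ a2 o = 1 ∧ a3 o = 1)
    (bi : b1 i ≠ 0 ∧ b2 i = 0 ∧ b3 i = 0) (bj : b1 j = 0 ∧ b2 j ≠ 0 ∧ b3 j = 0)
    (bk : b1 k = 0 ∧ b2 k = 0 ∧ b3 k ≠ 0) (bo : b1 o = 1 ∧ b2 o = 1 ∧ b3 o = 1) :
    ∃ α : F ≃+* F, ∀ e, ∃ c, c ≠ 0 ∧ b1 e = c * α (a1 e) ∧ b2 e = c * α (a2 e) ∧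
      b3 e = c * α (a3 e) := by
  choose σ h1 h2 h3 using hs
  have Z1 : ∀ e, a1 e = 0 ↔ b1 e = 0 := by
    intro e
    constructor
    · intro h
      obtain ⟨s, t, h', -, -⟩ := (H e j k).1 ⟨a2 e, a3 e, by simp [h, aj, ak]⟩
      simpa [bj, bk] using h'
    · intro h
      obtain ⟨s, t, h', -, -⟩ := (H e j k).2 ⟨b2 e / b2 j, b3 e / b3 k, by simp [h, bj, bk]⟩
      simpa [aj, ak] using h'
  have Z2 : ∀ e, a2 e = 0 ↔ b2 e = 0 := by
    intro e
    constructor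
    · intro h
      obtain ⟨s, t, -, h', -⟩ := (H e i k).1 ⟨a1 e, a3 e, by simp [h, ai, ak]⟩
      simpa [bi, bk] using h'
    · intro h
      obtain ⟨s, t, -, h', -⟩ := (H e i k).2 ⟨b1 e / b1 i, b3 e / b3 k, by simp [h, bi, bk]⟩
      simpa [ai, ak] using h'
  have Z3 : ∀ e, a3 e = 0 ↔ b3 e = 0 := by
    intro e
    constructor
    · intro h
      obtain ⟨s, t, -, -, h'⟩ := (H e i j).1 ⟨a1 e, a2 e, by simp [h, ai, aj]⟩
      simpa [bi, bj] using h'
    · intro h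
      obtain ⟨s, t, -, -, h'⟩ := (H e i j).2 ⟨b1 e / b1 i, b2 e / b2 j, by simp [h, bi, bj]⟩
      simpa [ai, aj] using h'
  have P12 : ∀ e f s, a1 e = s * a1 f → a2 e = s * a2 f →
      ∃ s', b1 e = s' * b1 f ∧ b2 e = s' * b2 f := by
    intro e f s e1 e2
    obtain ⟨s', t, g1, g2, -⟩ := (H e f k).1 ⟨s, a3 e - s * a3 f, by simp [e1, e2, ak]⟩
    exact ⟨s', by simpa [bk] using g1, by simpa [bk] using g2⟩
  have P13 : ∀ e f s, a1 e = s * a1 f → a3 e = s * a3 f →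
      ∃ s', b1 e = s' * b1 f ∧ b3 e = s' * b3 f := by
    intro e f s e1 e2
    obtain ⟨s', t, g1, -, g2⟩ := (H e f j).1 ⟨s, a2 e - s * a2 f, by simp [e1, e2, aj]⟩
    exact ⟨s', by simpa [bj] using g1, by simpa [bj] using g2⟩
  have P23 : ∀ e f s, a2 e = s * a2 f → a3 e = s * a3 f →
      ∃ s', b2 e = s' * b2 f ∧ b3 e = s' * b3 f := by
    intro e f s e1 e2
    obtain ⟨s', t, -, g1, g2⟩ := (H e f i).1 ⟨s, a1 e - s * a1 f, by simp [e1, e2, ai]⟩
    exact ⟨s', by simpa [bi] using g1, by simpa [bi] using g2⟩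
  have nz : ∀ y z, b1 (σ 1 y z) ≠ 0 := fun y z h => by
    have := (Z1 _).2 h
    rw [h1] at this; exact one_ne_zero this
  set α : F → F := fun x => b2 (σ 1 x 0) / b1 (σ 1 x 0) with hα
  set β : F → F := fun x => b3 (σ 1 0 x) / b1 (σ 1 0 x) with hβ
  have CA : ∀ e, a1 e ≠ 0 → b2 e = α (a2 e / a1 e) * b1 e := by
    intro e he
    obtain ⟨s, g1, g2⟩ := P12 e (σ 1 (a2 e / a1 e) 0) (a1 e) (by rw [h1, mul_one])
      (by rw [h2]; field_simp)
    have := nz (a2 e / a1 e) 0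
    rw [g2, g1]; simp only [hα]; field_simp
  have CB : ∀ e, a1 e ≠ 0 → b3 e = β (a3 e / a1 e) * b1 e := by
    intro e he
    obtain ⟨s, g1, g2⟩ := P13 e (σ 1 0 (a3 e / a1 e)) (a1 e) (by rw [h1, mul_one])
      (by rw [h3]; field_simp)
    have := nz 0 (a3 e / a1 e)
    rw [g2, g1]; simp only [hβ]; field_simp
  have CC : ∀ e, a2 e = a3 e → b2 e = b3 e := by
    intro e he
    obtain ⟨s, g1, g2⟩ := P23 e o (a2 e) (by rw [ao.2.1, mul_one]) (by rw [ao.2.2, mul_one, he])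
    rw [g1, g2, bo.2.1, bo.2.2]
  have S2 : ∀ y z, b2 (σ 1 y z) = α y * b1 (σ 1 y z) := fun y z => by
    have := CA (σ 1 y z) (by rw [h1]; exact one_ne_zero)
    rwa [h1, h2, div_one] at this
  have S3' : ∀ y z, b3 (σ 1 y z) = β z * b1 (σ 1 y z) := fun y z => by
    have := CB (σ 1 y z) (by rw [h1]; exact one_ne_zero)
    rwa [h1, h3, div_one] at this
  have αβ : ∀ x, β x = α x := by
    intro x
    have := CC (σ 1 x x) (by rw [h2, h3])
    rw [S2, S3'] at this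
    exact (mul_right_cancel₀ (nz x x) this).symm
  have S3 : ∀ y z, b3 (σ 1 y z) = α z * b1 (σ 1 y z) := fun y z => by rw [S3', αβ]
  have α1 : α 1 = 1 := by
    have := CA o (by rw [ao.1]; exact one_ne_zero)
    rw [ao.1, ao.2.1, bo.1, bo.2.1, div_one, mul_one] at this
    exact this.symm
  have α0 : α 0 = 0 := by
    have : b2 (σ 1 0 0) = 0 := (Z2 _).1 (h2 _ _ _)
    simp only [hα, this, zero_div]
  have αadd : ∀ x c, α (x + c) = α x + α c := by
    intro x c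
    obtain ⟨s, t, g1, g2, g3⟩ := (H (σ 1 x (x + c)) (σ 1 0 c) (σ 0 1 1)).1
      ⟨1, x, by simp [h1, h2, h3, add_comm]⟩
    have z1 : b1 (σ 0 1 1) = 0 := (Z1 _).1 (h1 _ _ _)
    have z2 : b2 (σ 0 1 1) = b3 (σ 0 1 1) := CC _ (by rw [h2, h3])
    rw [z1, mul_zero, add_zero] at g1
    rw [S2, S2, α0, zero_mul, mul_zero, zero_add, z2] at g2
    rw [S3, S3, ← g2] at g3
    apply mul_right_cancel₀ (nz x (x + c))
    rw [g3, g1]; ring
  have αmul : ∀ m x, α (m * x) = α m * α x := by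
    intro m x
    obtain ⟨s, t, -, g2, g3⟩ := (H (σ 1 x (m * x)) (σ 1 1 m) i).1
      ⟨x, 1 - x, by simp [h1, h2, h3, ai, mul_comm]⟩
    rw [S2, S2, α1, bi.2.1, mul_zero, add_zero, one_mul] at g2
    rw [S3, S3, bi.2.2, mul_zero, add_zero] at g3
    apply mul_right_cancel₀ (nz x (m * x))
    rw [g3, mul_assoc (α m), g2]; ring
  let A : F →+* F :=
    { toFun := α, map_one' := α1, map_mul' := αmul, map_zero' := α0, map_add' := αadd }
  have hA : Function.Bijective A := Finite.injective_iff_bijective.1 A.injective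
  refine ⟨RingEquiv.ofBijective A hA, fun e => ?_⟩
  simp only [RingEquiv.ofBijective_apply]
  by_cases he : a1 e = 0
  · obtain ⟨s, g2, g3⟩ := P23 e (σ 1 (a2 e) (a3 e)) 1 (by rw [h2, one_mul]) (by rw [h3, one_mul])
    rw [S2] at g2
    rw [S3] at g3
    by_cases hs : s = 0
    · rw [hs, zero_mul] at g2 g3
      refine ⟨1, one_ne_zero, ?_, ?_, ?_⟩
      · rw [he, map_zero, (Z1 e).1 he, mul_zero]
      · rw [(Z2 e).2 g2, map_zero, g2, mul_zero]
      · rw [(Z3 e).2 g3, map_zero, g3, mul_zero]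
    · refine ⟨s * b1 (σ 1 (a2 e) (a3 e)), mul_ne_zero hs (nz _ _), ?_, ?_, ?_⟩
      · rw [he, map_zero, (Z1 e).1 he, mul_zero]
      · rw [g2]; show _ = _ * α (a2 e); ring
      · rw [g3]; show _ = _ * α (a3 e); ring
  · have hb : b1 e ≠ 0 := fun h => he ((Z1 e).2 h)
    have hAa : A (a1 e) ≠ 0 := (map_ne_zero A).2 he
    refine ⟨b1 e / A (a1 e), div_ne_zero hb hAa, ?_, ?_, ?_⟩
    · field_simp
    · have := CA e he
      rw [show α (a2 e / a1 e) = A (a2 e / a1 e) from rfl, map_div₀] at this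
      rw [this]; field_simp
    · have := CB e he
      rw [αβ, show α (a3 e / a1 e) = A (a3 e / a1 e) from rfl, map_div₀] at this
      rw [this]; field_simp

lemma col_scale {ι : Type} (b1 b2 b3 : ι → F) {d1 d2 d3 : F} (h1 : d1 ≠ 0) (h2 : d2 ≠ 0)
    (h3 : d3 ≠ 0) (e f g : ι) :
    Col b1 b2 b3 e f g ↔
      Col (fun e => b1 e / d1) (fun e => b2 e / d2) (fun e => b3 e / d3) e f g := by
  constructor
  · rintro ⟨s, t, g1, g2, g3⟩
    refine ⟨s, t, ?_, ?_, ?_⟩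
    · simp only [g1]; ring
    · simp only [g2]; ring
    · simp only [g3]; ring
  · rintro ⟨s, t, g1, g2, g3⟩
    refine ⟨s, t, ?_, ?_, ?_⟩
    · field_simp at g1; exact g1
    · field_simp at g2; exact g2
    · field_simp at g3; exact g3

lemma ft {ι : Type} (a1 a2 a3 b1 b2 b3 : ι → F)
    (H : ∀ e f g, Col a1 a2 a3 e f g ↔ Col b1 b2 b3 e f g)
    (hs : ∀ x y z, ∃ e, a1 e = x ∧ a2 e = y ∧ a3 e = z) (i j k : ι)
    (ai : a1 i = 1 ∧ a2 i = 0 ∧ a3 i = 0) (aj : a1 j = 0 ∧ a2 j = 1 ∧ a3 j = 0)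
    (ak : a1 k = 0 ∧ a2 k = 0 ∧ a3 k = 1)
    (bi : b1 i = 1 ∧ b2 i = 0 ∧ b3 i = 0) (bj : b1 j = 0 ∧ b2 j = 1 ∧ b3 j = 0)
    (bk : b1 k = 0 ∧ b2 k = 0 ∧ b3 k = 1) :
    ∃ (α : F ≃+* F) (d1 d2 d3 : F), d1 ≠ 0 ∧ d2 ≠ 0 ∧ d3 ≠ 0 ∧ ∀ e, ∃ c, c ≠ 0 ∧
      b1 e = c * d1 * α (a1 e) ∧ b2 e = c * d2 * α (a2 e) ∧ b3 e = c * d3 * α (a3 e) := by
  obtain ⟨o, ao⟩ := hs 1 1 1
  have d1 : b1 o ≠ 0 := by
    intro h
    obtain ⟨s, t, h', -, -⟩ := (H o j k).2 ⟨b2 o, b3 o, by simp [h, bj, bk]⟩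
    simp [ao, aj, ak] at h'
  have d2 : b2 o ≠ 0 := by
    intro h
    obtain ⟨s, t, -, h', -⟩ := (H o i k).2 ⟨b1 o, b3 o, by simp [h, bi, bk]⟩
    simp [ao, ai, ak] at h'
  have d3 : b3 o ≠ 0 := by
    intro h
    obtain ⟨s, t, -, -, h'⟩ := (H o i j).2 ⟨b1 o, b2 o, by simp [h, bi, bj]⟩
    simp [ao, ai, aj] at h'
  obtain ⟨α, hα⟩ := ft_norm a1 a2 a3 (fun e => b1 e / b1 o) (fun e => b2 e / b2 o)
    (fun e => b3 e / b3 o) (fun e f g => (H e f g).trans (col_scale b1 b2 b3 d1 d2 d3 e f g))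
    hs i j k o ai aj ak ao (by simp [bi, d1]) (by simp [bj, d2]) (by simp [bk, d3])
    (by simp [d1, d2, d3])
  refine ⟨α, b1 o, b2 o, b3 o, d1, d2, d3, fun e => ?_⟩
  obtain ⟨c, hc, g1, g2, g3⟩ := hα e
  refine ⟨c, hc, ?_, ?_, ?_⟩
  · rw [div_eq_iff d1] at g1; rw [g1]; ring
  · rw [div_eq_iff d2] at g2; rw [g2]; ring
  · rw [div_eq_iff d3] at g3; rw [g3]; ring

lemma third {r : ℕ} (hr : 3 ≤ r) (i j : Fin r) : ∃ k, k ≠ i ∧ k ≠ j := by
  by_contra h
  push Not at h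
  have : (univ : Finset (Fin r)) ⊆ {i, j} := by
    intro k _
    by_cases hk : k = i
    · simp [hk]
    · simp [h k hk]
  have h1 := (card_le_card this).trans (card_le_two (a := i) (b := j))
  simp at h1; omega

lemma glue {ι : Type} {r : ℕ} (hr : 3 ≤ r) (A B : Fin r → ι → F)
    (hT : ∀ i j k, i ≠ j → i ≠ k → j ≠ k → ∃ (α : F ≃+* F) (d1 d2 d3 : F),
      d1 ≠ 0 ∧ d2 ≠ 0 ∧ d3 ≠ 0 ∧ ∀ e, ∃ c, c ≠ 0 ∧ B i e = c * d1 * α (A i e) ∧
        B j e = c * d2 * α (A j e) ∧ B k e = c * d3 * α (A k e))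
    (hs : ∀ i k, i ≠ k → ∀ x, ∃ e, A i e = 1 ∧ A k e = x) :
    ∃ (α : F ≃+* F) (d : Fin r → F) (c : ι → F), (∀ i, d i ≠ 0) ∧ (∀ e, c e ≠ 0) ∧
      ∀ i e, B i e = c e * d i * α (A i e) := by
  let Rel : Fin r → Fin r → (F ≃+* F) → F → Prop :=
    fun i k α δ => ∀ e, B i e * δ * α (A k e) = B k e * α (A i e)
  have Z : ∀ i e, B i e = 0 ↔ A i e = 0 := by
    intro i e
    obtain ⟨j, hj, -⟩ := third hr i i
    obtain ⟨k, hk1, hk2⟩ := third hr i j
    obtain ⟨α, d1, d2, d3, h1, -, -, h⟩ := hT i j k hj.symm hk1.symm hk2.symm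
    obtain ⟨c, hc, g, -⟩ := h e
    rw [g]; simp [hc, h1]
  have U : ∀ i k α β δ ε, i ≠ k → Rel i k α δ → δ ≠ 0 → Rel i k β ε → α = β ∧ δ = ε := by
    intro i k α β δ ε hik h1 hδ h2
    have key : ∀ x, δ * α x = ε * β x := by
      intro x
      obtain ⟨e, e1, e2⟩ := hs i k hik x
      have hB : B i e ≠ 0 := fun h => by
        rw [(Z i e).1 h] at e1; exact zero_ne_one e1
      have a1 := h1 e
      have a2 := h2 e
      rw [e1, e2, map_one] at a1 a2
      apply mul_left_cancel₀ hB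
      rw [← mul_assoc, ← mul_assoc, a1, a2]
    have hδε : δ = ε := by simpa using key 1
    refine ⟨?_, hδε⟩
    ext x
    have := key x
    rw [← hδε] at this
    exact mul_left_cancel₀ hδ this
  have T : ∀ i j k, i ≠ j → i ≠ k → j ≠ k → ∃ (α : F ≃+* F) (δ ε : F), δ ≠ 0 ∧ ε ≠ 0 ∧
      Rel i j α δ ∧ Rel i k α ε ∧ ∀ e, B j e * ε * α (A k e) = B k e * δ * α (A j e) := by
    intro i j k hij hik hjk
    obtain ⟨α, d1, d2, d3, h1, h2, h3, h⟩ := hT i j k hij hik hjk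
    refine ⟨α, d2 / d1, d3 / d1, div_ne_zero h2 h1, div_ne_zero h3 h1, fun e => ?_, fun e => ?_,
      fun e => ?_⟩ <;>
    obtain ⟨c, -, g1, g2, g3⟩ := h e
    · rw [g1, g2]; field_simp
    · rw [g1, g3]; field_simp
    · rw [g2, g3]; field_simp
  let i0 : Fin r := ⟨0, by omega⟩
  obtain ⟨j0, hj0, -⟩ := third hr i0 i0
  obtain ⟨k0, hk1, hk2⟩ := third hr i0 j0
  obtain ⟨α, δ0, -, hδ0, -, hR0, -⟩ := T i0 j0 k0 hj0.symm hk1.symm hk2.symm
  have hd : ∀ k, ∃ δ, δ ≠ 0 ∧ Rel i0 k α δ ∧ (k = i0 → δ = 1) := by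
    intro k
    by_cases h1 : k = i0
    · subst h1
      exact ⟨1, one_ne_zero, fun e => by ring, fun _ => rfl⟩
    by_cases h2 : k = j0
    · subst h2
      exact ⟨δ0, hδ0, hR0, fun h => absurd h h1⟩
    obtain ⟨β, δ, ε, hδ, hε, g1, g2, -⟩ := T i0 j0 k hj0.symm (Ne.symm h1) (Ne.symm h2)
    obtain ⟨rfl, -⟩ := U i0 j0 α β δ0 δ hj0.symm hR0 hδ0 g1
    exact ⟨ε, hε, g2, fun h => absurd h h1⟩
  choose d hd0 hdR hd1 using hd
  have P : ∀ k l e, B k e * d l * α (A l e) = B l e * d k * α (A k e) := by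
    intro k l e
    by_cases hkl : k = l
    · rw [hkl]
    by_cases h1 : k = i0
    · rw [hd1 k h1, mul_one, h1]; exact hdR l e
    by_cases h2 : l = i0
    · rw [hd1 l h2, mul_one, h2]; exact (hdR k e).symm
    obtain ⟨β, δ, ε, hδ, hε, g1, g2, g3⟩ := T i0 k l (Ne.symm h1) (Ne.symm h2) hkl
    obtain ⟨rfl, e1⟩ := U i0 k α β (d k) δ (Ne.symm h1) (hdR k) (hd0 k) g1
    obtain ⟨-, e2⟩ := U i0 l α α (d l) ε (Ne.symm h2) (hdR l) (hd0 l) g2
    rw [e1, e2]; exact g3 e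
  have hc : ∀ e, ∃ c, c ≠ 0 ∧ ∀ i, B i e = c * d i * α (A i e) := by
    intro e
    by_cases h : ∀ k, A k e = 0
    · exact ⟨1, one_ne_zero, fun i => by rw [(Z i e).2 (h i), h i, map_zero, mul_zero]⟩
    · push Not at h
      obtain ⟨k, hk⟩ := h
      have hB : B k e ≠ 0 := fun h => hk ((Z k e).1 h)
      have hA : α (A k e) ≠ 0 := (map_ne_zero α).2 hk
      have hdk := hd0 k
      refine ⟨B k e / (d k * α (A k e)), div_ne_zero hB (mul_ne_zero hdk hA), fun i => ?_⟩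
      have := P k i e
      field_simp
      linear_combination -this
  choose c hc0 hc using hc
  exact ⟨α, d, c, hd0, hc0, fun i e => hc e i⟩

lemma span_transfer {ι W W' : Type} [AddCommGroup W] [Module F W] [AddCommGroup W'] [Module F W']
    (φ : ι → W) (ψ : ι → W') (h : ∀ I, LinearIndepOn F φ I ↔ LinearIndepOn F ψ I)
    (I : Set ι) (e : ι) (he : φ e ∈ Submodule.span F (φ '' I)) :
    ψ e ∈ Submodule.span F (ψ '' I) := by
  obtain ⟨J, hJI, -, hsp, hJ⟩ := exists_linearIndepOn_extension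
    (linearIndepOn_empty F φ) (Set.empty_subset I)
  refine Submodule.span_mono (Set.image_mono hJI) ?_
  by_cases heJ : e ∈ J
  · exact Submodule.subset_span ⟨e, heJ, rfl⟩
  · by_contra hn
    have h1 : LinearIndepOn F ψ (insert e J) := (linearIndepOn_insert heJ).2 ⟨(h J).1 hJ, hn⟩
    exact ((linearIndepOn_insert heJ).1 ((h _).2 h1)).2 (Submodule.span_le.2 hsp he)

section coords
variable {n r : ℕ} {W : Type} [AddCommGroup W] [Module F W] (φ : Fin n → W) (ε : Fin r → Fin n)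
  (co : Fin r → W →ₗ[F] F) (hco : ∀ l l', co l (φ (ε l')) = if l = l' then 1 else 0)
  (hsp : ∀ e, φ e ∈ Submodule.span F (φ '' Set.range ε))

include hco hsp in
lemma expand (e : Fin n) : φ e = ∑ l, co l (φ e) • φ (ε l) := by
  have := hsp e
  rw [← Set.range_comp, Submodule.mem_span_range_iff_exists_fun] at this
  obtain ⟨c, hc⟩ := this
  have h : ∀ l, co l (φ e) = c l := by
    intro l
    rw [← hc]
    simp [hco]
  simp only [h]
  exact hc.symm

include hco hsp in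
lemma col_iff (i j k : Fin r) (e f g : Fin n) :
    φ e ∈ Submodule.span F (φ '' insert f (insert g (ε '' {l | l ≠ i ∧ l ≠ j ∧ l ≠ k}))) ↔
      Col (fun e => co i (φ e)) (fun e => co j (φ e)) (fun e => co k (φ e)) e f g := by
  rw [Set.image_insert_eq, Set.image_insert_eq]
  constructor
  · intro h
    obtain ⟨s, z', hz', e1⟩ := Submodule.mem_span_insert.1 h
    obtain ⟨t, z, hz, e2⟩ := Submodule.mem_span_insert.1 hz'
    have key : ∀ l, (l = i ∨ l = j ∨ l = k) → co l z = 0 := by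
      intro l hl
      have : Submodule.span F (φ '' (ε '' {l | l ≠ i ∧ l ≠ j ∧ l ≠ k})) ≤ LinearMap.ker (co l) := by
        rw [Submodule.span_le]
        rintro _ ⟨_, ⟨l', hl', rfl⟩, rfl⟩
        have : l ≠ l' := by
          rintro rfl
          rcases hl with h | h | h
          · exact hl'.1 h
          · exact hl'.2.1 h
          · exact hl'.2.2 h
        simp [hco, this]
      exact this hz
    refine ⟨s, t, ?_, ?_, ?_⟩ <;> simp only [e1, e2, map_add, map_smul, smul_eq_mul]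
    · rw [key i (Or.inl rfl), add_zero]
    · rw [key j (Or.inr (Or.inl rfl)), add_zero]
    · rw [key k (Or.inr (Or.inr rfl)), add_zero]
  · rintro ⟨s, t, g1, g2, g3⟩
    refine Submodule.mem_span_insert.2 ⟨s, φ e - s • φ f, ?_, by abel⟩
    refine Submodule.mem_span_insert.2 ⟨t, φ e - s • φ f - t • φ g, ?_, by abel⟩
    have : φ e - s • φ f - t • φ g =
        ∑ l, (co l (φ e) - s * co l (φ f) - t * co l (φ g)) • φ (ε l) := by
      simp only [sub_smul, sum_sub_distrib, mul_smul, ← smul_sum]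
      rw [← expand φ ε co hco hsp e, ← expand φ ε co hco hsp f, ← expand φ ε co hco hsp g]
    rw [this]
    apply Submodule.sum_mem
    intro l _
    by_cases hl : l ≠ i ∧ l ≠ j ∧ l ≠ k
    · exact Submodule.smul_mem _ _ (Submodule.subset_span ⟨_, ⟨l, hl, rfl⟩, rfl⟩)
    · have : co l (φ e) - s * co l (φ f) - t * co l (φ g) = 0 := by
        by_cases h1 : l = i
        · rw [h1]; simp only at g1; rw [g1]; ring
        by_cases h2 : l = j
        · rw [h2]; simp only at g2; rw [g2]; ring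
        have h3 : l = k := by by_contra h3; exact hl ⟨h1, h2, h3⟩
        rw [h3]; simp only at g3; rw [g3]; ring
      rw [this, zero_smul]; exact Submodule.zero_mem _

include hco hsp in
lemma mem_kr_iff (x : Fin n → F) :
    x ∈ kr (F := F) φ ↔ ∀ l, ∑ e, x e * co l (φ e) = 0 := by
  rw [mem_kr]
  constructor
  · intro h l
    have := congrArg (co l) h
    simpa using this
  · intro h
    have : ∑ e, x e • φ e = ∑ l, (∑ e, x e * co l (φ e)) • φ (ε l) := by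
      simp only [sum_smul, mul_smul]
      rw [sum_comm]
      refine sum_congr rfl fun e _ => ?_
      rw [← smul_sum, ← expand φ ε co hco hsp e]
    rw [this]; simp [h]

end coords

def Good {n r : ℕ} (φ : Fin n → Fin r → F) : Prop :=
  ∃ (ε : Fin r → Fin n) (co : Fin r → (Fin r → F) →ₗ[F] F),
    (∀ l l', co l (φ (ε l')) = if l = l' then 1 else 0) ∧
    (∀ e, φ e ∈ Submodule.span F (φ '' Set.range ε)) ∧
    ∀ i j k, i ≠ j → i ≠ k → j ≠ k → ∀ x y z, ∃ e,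
      co i (φ e) = x ∧ co j (φ e) = y ∧ co k (φ e) = z

lemma uniq {n r : ℕ} (hr : 3 ≤ r) (φ : Fin n → Fin r → F) (hφ : Good φ)
    {W : Type} [AddCommGroup W] [Module F W] (ψ : Fin n → W)
    (h : ∀ I, LinearIndepOn F φ I ↔ LinearIndepOn F ψ I) :
    ∃ g : Mon F n, kr (F := F) ψ = g • kr (F := F) φ := by
  obtain ⟨ε, co, hco, hsp, hs⟩ := hφ
  have hε : Function.Injective ε := by
    intro l l' e
    have := hco l l'
    rw [← e, hco, if_pos rfl] at this
    by_contra hne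
    rw [if_neg hne] at this
    exact one_ne_zero this
  have li1 : LinearIndependent F (φ ∘ ε) := by
    rw [Fintype.linearIndependent_iff]
    intro c hc l
    have := congrArg (co l) hc
    simpa [hco] using this
  have li2 : LinearIndependent F (ψ ∘ ε) := by
    rw [← linearIndepOn_range_iff hε] at li1 ⊢
    exact (h _).1 li1
  have hco' : ∀ l, ∃ c : W →ₗ[F] F, ∀ l', c (ψ (ε l')) = if l = l' then 1 else 0 := by
    intro l
    obtain ⟨g, hg⟩ := ((Module.Basis.span li2).coord l).exists_extend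
    refine ⟨g, fun l' => ?_⟩
    have h2 := LinearMap.congr_fun hg (Module.Basis.span li2 l')
    rw [Module.Basis.coord_apply, Module.Basis.repr_self, Finsupp.single_apply] at h2
    have h3 : ((Module.Basis.span li2 l' : Submodule.span F (Set.range (ψ ∘ ε))) : W) =
        ψ (ε l') := by rw [Module.Basis.span_apply]; rfl
    rw [LinearMap.comp_apply, Submodule.subtype_apply, h3] at h2
    rw [h2]; simp [eq_comm]
  choose co' hco' using hco'
  have hsp' : ∀ e, ψ e ∈ Submodule.span F (ψ '' Set.range ε) :=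
    fun e => span_transfer φ ψ h _ e (hsp e)
  obtain ⟨α, d, c, hd, hc, hB⟩ := glue hr (fun l e => co l (φ e)) (fun l e => co' l (ψ e)) (by
    intro i j k hij hik hjk
    apply ft _ _ _ _ _ _ _ (hs i j k hij hik hjk) (ε i) (ε j) (ε k)
    · simp [hco, hij.symm, hik.symm]
    · simp [hco, hij, hjk.symm]
    · simp [hco, hik, hjk]
    · simp [hco', hij.symm, hik.symm]
    · simp [hco', hij, hjk.symm]
    · simp [hco', hik, hjk]
    · intro e f g
      rw [← col_iff φ ε co hco hsp, ← col_iff ψ ε co' hco' hsp']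
      exact ⟨span_transfer φ ψ h _ e, span_transfer ψ φ (fun I => (h I).symm) _ e⟩) (by
    intro i k hik x
    obtain ⟨j, hj1, hj2⟩ := third hr i k
    obtain ⟨e, e1, e2, -⟩ := hs i k j hik hj1.symm hj2.symm 1 x 0
    exact ⟨e, e1, e2⟩)
  let g : Mon F n := ⟨1, fun e => α.symm (c e), fun e => (map_ne_zero α.symm).2 (hc e), α.symm⟩
  refine ⟨g⁻¹, ?_⟩
  ext x
  rw [mem_smul_iff, inv_inv, mem_kr_iff φ ε co hco hsp, mem_kr_iff ψ ε co' hco' hsp']
  refine forall_congr' fun l => ?_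
  have e1 : ∑ e, x e * co' l (ψ e) = d l * α (∑ e, act g x e * co l (φ e)) := by
    rw [map_sum, mul_sum]
    refine sum_congr rfl fun e _ => ?_
    have : act g x e = α.symm (c e) * α.symm (x e) := rfl
    rw [hB l e, this]
    simp only [map_mul, RingEquiv.apply_symm_apply]
    ring
  rw [e1, mul_eq_zero, map_eq_zero_iff α α.injective]
  simp [hd l]

end Pool.Agent.H366Z.Mat
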